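import Pool.Agent.H87.NR.Sym

/-!
Weight-monodromy for `c Nh + Nv`, all `c` outside a finite set (MP_d037d4_ag).
-/

noncomputable section

namespace Pool.H87.NR

open Module Module.End Pool.H73.WM Pool.H9.WMC Pool.H9.WMC.FN

variable {q : ℕ} {Ω : Type} [Field Ω] [CharZero Ω] [IsAlgClosed Ω]

namespace Lim

variable (X : Lim q Ω)

/-- Linear sections of the projections. -/
theorem exists_sec (hq : 1 < q) (b r : ℤ) : ∃ s : (X.G r).wt b →ₗ[Ω] X.V,
    ∀ a, s a ∈ X.W b ∧ ∃ h : s a ∈ X.L r, X.π r ⟨s a, h⟩ = a := by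
  let P : Submodule Ω X.V := X.L r ⊓ X.W b
  let p : P →ₗ[Ω] (X.G r).wt b :=
    ((X.π r).comp (P.subtype.codRestrict (X.L r) fun x => x.2.1)).codRestrict ((X.G r).wt b)
      (fun x => X.π_wt hq r b ⟨x, x.2.1⟩ x.2.2)
  have hp : Function.Surjective p := by
    rintro ⟨a, ha⟩
    obtain ⟨x, hx, hxa⟩ := X.lift_wt hq r b a ha
    exact ⟨⟨x, x.2, hx⟩, Subtype.ext hxa⟩
  obtain ⟨g, hg⟩ := p.exists_rightInverse_of_surjective (LinearMap.range_eq_top.2 hp)
  refine ⟨P.subtype.comp g, fun a => ⟨(g a).2.2, (g a).2.1, ?_⟩⟩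
  have := congrArg (fun u => u a) hg
  exact congrArg Subtype.val this

/-- The graded object and the space have isomorphic parts of each weight. -/
theorem exists_equiv (hq : 1 < q) (w d : ℤ) : Nonempty (X.T w d ≃ₗ[Ω] X.W (w - d)) := by
  classical
  obtain ⟨R, hR⟩ := X.bounded
  choose s hs using X.exists_sec hq (w - d)
  let f : X.T w d →ₗ[Ω] X.W (w - d) :=
    (∑ r ∈ Finset.Icc (-(R : ℤ)) R, (s r).comp (((LinearMap.proj r :
      X.U →ₗ[Ω] (X.G r).V).comp (X.T w d).subtype).codRestrict _ (fun z => z.2 r))).codRestrict _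
      (fun z => by
        rw [LinearMap.sum_apply]
        exact Submodule.sum_mem _ fun r _ => (hs r _).1)
  have hf : ∀ z : X.T w d, (f z : X.V) = ∑ r ∈ Finset.Icc (-(R : ℤ)) R, s r ⟨z.1 r, z.2 r⟩ := by
    intro z
    change (∑ r ∈ Finset.Icc (-(R : ℤ)) R, (s r).comp (((LinearMap.proj r :
      X.U →ₗ[Ω] (X.G r).V).comp (X.T w d).subtype).codRestrict _ (fun z => z.2 r))) z = _
    rw [LinearMap.sum_apply]
    rfl
  have hout : ∀ (r : ℤ) (a : (X.G r).V), r ∉ Finset.Icc (-(R : ℤ)) R → a = 0 := by
    intro r a hr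
    apply hR
    rw [Finset.mem_Icc, ← abs_le] at hr
    exact not_le.1 hr
  have hinj : Function.Injective f := by
    rw [← LinearMap.ker_eq_bot, LinearMap.ker_eq_bot']
    intro z hz
    have h1 := hf z
    rw [hz] at h1
    have h2 : ∀ k : ℕ, ∀ r : ℤ, (R : ℤ) - k < r → z.1 r = 0 := by
      intro k
      induction k with
      | zero =>
        intro r hr
        exact hout r _ (by rw [Finset.mem_Icc]; push_cast at hr; omega)
      | succ k ih =>
        intro r hr
        by_cases hr1 : (R : ℤ) - k < r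
        · exact ih r hr1
        · by_cases hr2 : r ∈ Finset.Icc (-(R : ℤ)) R
          · rw [← Finset.add_sum_erase _ _ hr2] at h1
            have h3 : s r ⟨z.1 r, z.2 r⟩ ∈ X.L (r - 1) := by
              have h4 : s r ⟨z.1 r, z.2 r⟩ =
                  - ∑ r' ∈ (Finset.Icc (-(R : ℤ)) R).erase r, s r' ⟨z.1 r', z.2 r'⟩ :=
                eq_neg_of_add_eq_zero_left h1.symm
              rw [h4]
              refine Submodule.neg_mem _ (Submodule.sum_mem _ fun r' hr' => ?_)
              have hne := (Finset.mem_erase.1 hr').1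
              rcases lt_or_gt_of_ne hne with h5 | h5
              · exact X.mono.mono (show r' ≤ r - 1 by omega) (hs r' _).2.choose
              · have h6 := ih r' (by push_cast at hr; omega)
                have h7 : (⟨z.1 r', z.2 r'⟩ : (X.G r').wt (w - d)) = 0 := Subtype.ext h6
                rw [h7, map_zero]; exact Submodule.zero_mem _
            obtain ⟨h5, h6⟩ := (hs r ⟨z.1 r, z.2 r⟩).2
            rw [(X.π_ker r _).2 h3] at h6
            exact h6.symm
          · exact hout r _ hr2
    ext r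
    exact h2 (R - r + 1).natAbs r (by omega)
  have hsurj : Function.Surjective f := by
    obtain ⟨b, hb⟩ := X.mono.bot
    obtain ⟨t, ht⟩ := X.mono.top
    have h1 : ∀ k : ℕ, ∀ x : X.V, x ∈ X.L (b + k) → (hx : x ∈ X.W (w - d)) →
        ∃ z, f z = ⟨x, hx⟩ := by
      intro k
      induction k with
      | zero =>
        intro x hx hx'
        have h2 : x = 0 := by
          have : x ∈ X.L b := by simpa using hx
          rw [hb] at this
          exact (Submodule.mem_bot Ω).1 this
        subst h2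
        exact ⟨0, map_zero f⟩
      | succ k ih =>
        intro x hx hx'
        let r : ℤ := b + ((k + 1 : ℕ) : ℤ)
        have hr : r - 1 = b + (k : ℤ) := by simp only [r]; push_cast; ring
        let a : (X.G r).wt (w - d) := ⟨X.π r ⟨x, hx⟩, X.π_wt hq r _ ⟨x, hx⟩ hx'⟩
        obtain ⟨h2, h3, h4⟩ := hs r a
        have h5 : x - s r a ∈ X.L (b + (k : ℤ)) := by
          rw [← hr]
          have := (X.π_ker r ⟨x - s r a, Submodule.sub_mem _ hx h3⟩).1 (by
            have h6 : (⟨x - s r a, Submodule.sub_mem _ hx h3⟩ : X.L r) = ⟨x, hx⟩ - ⟨s r a, h3⟩ :=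
              rfl
            rw [h6, map_sub, h4]
            exact sub_self _)
          exact this
        obtain ⟨z, hz⟩ := ih _ h5 (Submodule.sub_mem _ hx' h2)
        have hsingle : (Pi.single r (a : (X.G r).V) : X.U) ∈ X.T w d := by
          intro r'
          by_cases h : r' = r
          · subst h
            rw [Pi.single_eq_same]; exact a.2
          · rw [Pi.single_eq_of_ne h]; exact Submodule.zero_mem _
        refine ⟨z + ⟨_, hsingle⟩, ?_⟩
        rw [map_add, hz]
        have h7 : f ⟨_, hsingle⟩ = ⟨s r a, h2⟩ := by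
          apply Subtype.ext
          rw [hf]
          by_cases hr2 : r ∈ Finset.Icc (-(R : ℤ)) R
          · rw [Finset.sum_eq_single_of_mem r hr2]
            · congr 1
              apply Subtype.ext
              exact Pi.single_eq_same _ _
            · intro r' _ hne
              have h8 : (⟨(Pi.single r (a : (X.G r).V) : X.U) r', hsingle r'⟩ :
                  (X.G r').wt (w - d)) = 0 := Subtype.ext (Pi.single_eq_of_ne hne _)
              rw [h8, map_zero]
          · have h9 : a = 0 := Subtype.ext (hout r _ hr2)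
            have h11 : s r a = 0 := by rw [h9, map_zero]
            have h12 : (Pi.single r (a : (X.G r).V) : X.U) = 0 := by
              rw [h9]
              exact Pi.single_zero _
            change _ = s r a
            rw [h11]
            refine Finset.sum_eq_zero fun r' _ => ?_
            have h10 : (⟨(Pi.single r (a : (X.G r).V) : X.U) r', hsingle r'⟩ :
                (X.G r').wt (w - d)) = 0 := Subtype.ext (congrFun h12 r')
            rw [h10, map_zero]
        rw [h7]
        apply Subtype.ext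
        change x - s r a + s r a = x
        abel
    rintro ⟨x, hx⟩
    refine h1 (t - b).natAbs x ?_ hx
    have : X.L t ≤ X.L (b + ((t - b).natAbs : ℤ)) := X.mono.mono (by omega)
    rw [ht] at this
    exact this trivial
  exact ⟨LinearEquiv.ofBijective f ⟨hinj, hsurj⟩⟩

omit [IsAlgClosed Ω] in
theorem n_T (hq : 1 < q) (w d : ℤ) (z : X.U) (hz : z ∈ X.T w d) :
    (X.nh + X.nv) z ∈ X.T w (d + 2) := by
  intro r
  have e : w - (d + 2) = w - d - 2 := by ring
  rw [e]
  exact Submodule.add_mem _ (X.wt_ν hq r _ _ (hz (r + 2))) ((X.G r).wt_N hq _ _ (hz r))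

theorem finrank_W (hq : 1 < q) {w : ℤ} (hG : ∀ r, (X.G r).Pur (w + r)) (n : ℕ) :
    finrank Ω (X.W (w + n)) = finrank Ω (X.W (w - n)) := by
  obtain ⟨e1⟩ := X.exists_equiv hq w (-(n : ℤ))
  obtain ⟨e2⟩ := X.exists_equiv hq w n
  have hm : ∀ (k : ℕ) (d : ℤ) z, z ∈ X.T w d → ((X.nh + X.nv) ^ k) z ∈ X.T w (d + 2 * k) := by
    intro k
    induction k with
    | zero => intro d z hz; simpa using hz
    | succ k ih =>
      intro d z hz
      rw [pow_succ', Module.End.mul_apply]
      have := X.n_T hq w _ _ (ih d z hz)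
      have e : d + 2 * (k : ℤ) + 2 = d + 2 * ((k + 1 : ℕ) : ℤ) := by push_cast; ring
      rwa [e] at this
  have hm' : ∀ z ∈ X.T w (-(n : ℤ)), ((X.nh + X.nv) ^ n) z ∈ X.T w n := by
    intro z hz
    have := hm n _ z hz
    have e : -(n : ℤ) + 2 * n = n := by ring
    rwa [e] at this
  obtain ⟨h1, h2⟩ := X.hl w hq hG n
  let g : X.T w (-(n : ℤ)) →ₗ[Ω] X.T w n := ((X.nh + X.nv) ^ n).restrict hm'
  have hg : Function.Bijective g := by
    constructor
    · rw [← LinearMap.ker_eq_bot, LinearMap.ker_eq_bot']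
      intro z hz
      exact Subtype.ext (h1 z z.2 (congrArg Subtype.val hz))
    · rintro ⟨z, hz⟩
      obtain ⟨y, hy, hyz⟩ := h2 z hz
      exact ⟨⟨y, hy⟩, Subtype.ext hyz⟩
  have e3 := (e1.symm.trans (LinearEquiv.ofBijective g hg)).trans e2
  have := e3.finrank_eq
  rwa [sub_neg_eq_add] at this

/-- The monodromy operator of the fibre. -/
def N (c : Ω) : Module.End Ω X.V := c • X.Nh + X.Nv

omit [IsAlgClosed Ω] in
theorem N_pow (c : Ω) (n : ℕ) : X.N c ^ n =
    ∑ j ∈ Finset.range (n + 1), c ^ j • ((n.choose j : Ω) • (X.Nh ^ j * X.Nv ^ (n - j))) := by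
  have h : Commute (c • X.Nh) X.Nv := by
    ext x
    simp [X.comm]
  unfold N
  rw [h.add_pow]
  refine Finset.sum_congr rfl fun j _ => ?_
  rw [← Nat.cast_comm, ← nsmul_eq_mul, smul_pow, smul_mul_assoc, ← Nat.cast_smul_eq_nsmul Ω,
    smul_comm]

omit [IsAlgClosed Ω] in
theorem pow_W (hq : 1 < q) (w : ℤ) (n j : ℕ) :
    ∀ x ∈ X.W (w + n), ((n.choose j : Ω) • (X.Nh ^ j * X.Nv ^ (n - j))) x ∈ X.W (w - n) := by
  have h1 : ∀ (k : ℕ) v x, x ∈ X.W v → (X.Nv ^ k) x ∈ X.W (v - 2 * k) := by
    intro k
    induction k with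
    | zero => intro v x hx; simpa using hx
    | succ k ih =>
      intro v x hx
      rw [pow_succ', Module.End.mul_apply]
      have := X.Nv_W hq _ _ (ih v x hx)
      have e : v - 2 * (k : ℤ) - 2 = v - 2 * ((k + 1 : ℕ) : ℤ) := by push_cast; ring
      rwa [e] at this
  have h2 : ∀ (k : ℕ) v x, x ∈ X.W v → (X.Nh ^ k) x ∈ X.W (v - 2 * k) := by
    intro k
    induction k with
    | zero => intro v x hx; simpa using hx
    | succ k ih =>
      intro v x hx
      rw [pow_succ', Module.End.mul_apply]
      have := X.Nh_W hq _ _ (ih v x hx)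
      have e : v - 2 * (k : ℤ) - 2 = v - 2 * ((k + 1 : ℕ) : ℤ) := by push_cast; ring
      rwa [e] at this
  intro x hx
  rcases le_or_gt j n with hj | hj
  · rw [LinearMap.smul_apply, Module.End.mul_apply]
    refine Submodule.smul_mem _ _ ?_
    have := h2 j _ _ (h1 (n - j) _ x hx)
    have e : w + n - 2 * ((n - j : ℕ) : ℤ) - 2 * (j : ℤ) = w - n := by
      rw [Nat.cast_sub hj]; ring
    rwa [e] at this
  · rw [Nat.choose_eq_zero_of_lt hj, Nat.cast_zero, zero_smul, LinearMap.zero_apply]
    exact Submodule.zero_mem _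

/-- `N c ^ n` is an isomorphism from the part of weight `w + n` to the part of weight `w - n`. -/
def PurAt (w : ℤ) (n : ℕ) (c : Ω) : Prop :=
  (∀ x ∈ X.W (w + n), (X.N c ^ n) x = 0 → x = 0) ∧
    ∀ y ∈ X.W (w - n), ∃ x ∈ X.W (w + n), (X.N c ^ n) x = y

omit [IsAlgClosed Ω] in
/-- The determinant of `N c ^ n`, as a polynomial in `c`. -/
theorem det_poly (hq : 1 < q) (w : ℤ) (n : ℕ)
    (hd : finrank Ω (X.W (w + n)) = finrank Ω (X.W (w - n))) :
    ∃ p : Polynomial Ω, (∀ c, p.eval c ≠ 0 ↔ X.PurAt w n c) ∧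
      (p = 0 → ∃ y : ℤ → X.V, y ≠ 0 ∧ (∃ T : ℤ, ∀ t, T < |t| → y t = 0) ∧
        (∀ t, y t ∈ X.W (w + n)) ∧ ((X.sH + X.sK) ^ n) y = 0) := by
  classical
  let k := finrank Ω (X.W (w + n))
  let b1 : Basis (Fin k) Ω (X.W (w + n)) := finBasis Ω _
  let b2 : Basis (Fin k) Ω (X.W (w - n)) := finBasisOfFinrankEq Ω _ hd.symm
  let A : ℕ → (X.W (w + n) →ₗ[Ω] X.W (w - n)) := fun j =>
    ((n.choose j : Ω) • (X.Nh ^ j * X.Nv ^ (n - j))).restrict (X.pow_W hq w n j)
  let Mt : ℕ → Matrix (Fin k) (Fin k) Ω := fun j => LinearMap.toMatrix b1 b2 (A j)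
  let P : Matrix (Fin k) (Fin k) (Polynomial Ω) := fun i l =>
    ∑ j ∈ Finset.range (n + 1), Polynomial.C (Mt j i l) * Polynomial.X ^ j
  refine ⟨P.det, ?_, ?_⟩
  · intro c
    have hm : ∀ x ∈ X.W (w + n), (X.N c ^ n) x ∈ X.W (w - n) := by
      intro x hx
      rw [N_pow, LinearMap.sum_apply]
      exact Submodule.sum_mem _ fun j _ => Submodule.smul_mem _ _ (X.pow_W hq w n j x hx)
    let B : X.W (w + n) →ₗ[Ω] X.W (w - n) := (X.N c ^ n).restrict hm
    have hB : B = ∑ j ∈ Finset.range (n + 1), c ^ j • A j := by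
      ext x
      rw [LinearMap.sum_apply, AddSubmonoidClass.coe_finsetSum]
      change (X.N c ^ n) x = _
      rw [N_pow, LinearMap.sum_apply]
      rfl
    have hMB : P.map (Polynomial.evalRingHom c) = LinearMap.toMatrix b1 b2 B := by
      rw [hB, map_sum]
      ext i l
      rw [Matrix.map_apply, Matrix.sum_apply]
      simp only [P, map_sum, map_mul, map_pow, Polynomial.coe_evalRingHom, Polynomial.eval_C,
        Polynomial.eval_X, map_smul, Matrix.smul_apply, smul_eq_mul, Mt]
      refine Finset.sum_congr rfl fun j _ => mul_comm _ _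
    have h1 : P.det.eval c = (LinearMap.toMatrix b1 b2 B).det := by
      rw [← hMB]
      exact RingHom.map_det (Polynomial.evalRingHom c) P
    rw [h1, ← isUnit_iff_ne_zero]
    constructor
    · intro hdet
      let E := LinearEquiv.ofIsUnitDet hdet
      have hE : ∀ x, E x = B x := fun _ => rfl
      constructor
      · intro x hx h0
        have h1 : B ⟨x, hx⟩ = 0 := Subtype.ext h0
        rw [← hE] at h1
        exact congrArg Subtype.val ((LinearEquiv.map_eq_zero_iff E).1 h1)
      · intro y hy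
        obtain ⟨x, hx⟩ := E.surjective ⟨y, hy⟩
        exact ⟨x, x.2, congrArg Subtype.val hx⟩
    · rintro ⟨hi, hs⟩
      have hbij : Function.Bijective B := by
        constructor
        · rw [← LinearMap.ker_eq_bot, LinearMap.ker_eq_bot']
          intro z hz
          exact Subtype.ext (hi z z.2 (congrArg Subtype.val hz))
        · rintro ⟨y, hy⟩
          obtain ⟨x, hx, hxy⟩ := hs y hy
          exact ⟨⟨x, hx⟩, Subtype.ext hxy⟩
      exact LinearEquiv.isUnit_det (LinearEquiv.ofBijective B hbij) b1 b2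
  · intro hdet
    obtain ⟨v, hv, hPv⟩ := Matrix.exists_mulVec_eq_zero_iff.2 hdet
    let g : Fin k → ℤ → Ω := fun l t => if 0 ≤ t then (v l).coeff t.toNat else 0
    let y : ℤ → X.V := fun t => ∑ l, g l t • (b1 l : X.V)
    refine ⟨y, ?_, ⟨∑ l, ((v l).natDegree : ℤ), fun t ht => ?_⟩,
      (fun t => Submodule.sum_mem _ fun l _ => Submodule.smul_mem _ _ (b1 l).2), ?_⟩
    · intro hy
      apply hv
      funext l
      ext t
      have h1 := congrFun hy (t : ℤ)
      have h2 : (∑ l, g l (t : ℤ) • b1 l) = 0 := by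
        apply Subtype.ext
        rw [AddSubmonoidClass.coe_finsetSum]
        exact h1
      have h3 := Fintype.linearIndependent_iff.1 b1.linearIndependent _ h2 l
      simpa [g] using h3
    · refine Finset.sum_eq_zero fun l _ => ?_
      have : g l t = 0 := by
        simp only [g]
        split_ifs with h
        · apply Polynomial.coeff_eq_zero_of_natDegree_lt
          have h1 : ((v l).natDegree : ℤ) ≤ ∑ l, ((v l).natDegree : ℤ) :=
            Finset.single_le_sum (f := fun l => ((v l).natDegree : ℤ))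
              (fun _ _ => by positivity) (Finset.mem_univ l)
          rw [abs_of_nonneg h] at ht
          omega
        · rfl
      rw [this, zero_smul]
    · funext t
      rw [X.s_pow]
      have h1 : (∑ j ∈ Finset.range (n + 1), ∑ l, g l (t - j) • A j (b1 l)) = 0 := by
        apply b2.repr.injective
        ext i
        rw [map_sum, map_zero, Finsupp.coe_zero, Pi.zero_apply, Finsupp.finsetSum_apply]
        have h2 : ∀ j : ℕ, (b2.repr (∑ l, g l (t - j) • A j (b1 l))) i =
            ∑ l, g l (t - j) * Mt j i l := by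
          intro j
          rw [map_sum, Finsupp.finsetSum_apply]
          refine Finset.sum_congr rfl fun l _ => ?_
          rw [map_smul, Finsupp.smul_apply, smul_eq_mul]
          simp only [Mt, LinearMap.toMatrix_apply]
        simp only [h2]
        rcases lt_or_ge t 0 with ht | ht
        · refine Finset.sum_eq_zero fun j _ => Finset.sum_eq_zero fun l _ => ?_
          have : g l (t - j) = 0 := by
            simp only [g]
            rw [if_neg (by omega)]
          rw [this, zero_mul]
        · obtain ⟨t, rfl⟩ := Int.eq_ofNat_of_zero_le ht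
          have h3 := congrArg (fun p => Polynomial.coeff p t) (congrFun hPv i)
          simp only [Matrix.mulVec, dotProduct, P, Pi.zero_apply, Polynomial.coeff_zero,
            Polynomial.finsetSum_coeff, Finset.sum_mul] at h3
          rw [Finset.sum_comm, ← h3]
          refine Finset.sum_congr rfl fun l _ => Finset.sum_congr rfl fun j _ => ?_
          have e : Polynomial.C (Mt j i l) * Polynomial.X ^ j * v l =
              Polynomial.C (Mt j i l) * (v l * Polynomial.X ^ j) := by ring
          rw [e, Polynomial.coeff_C_mul, Polynomial.coeff_mul_X_pow', mul_comm]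
          congr 1
          simp only [g]
          by_cases hjt : j ≤ t
          · rw [if_pos (by omega), if_pos hjt]
            congr 1
            omega
          · rw [if_neg (by omega), if_neg hjt]
      have h4 := congrArg Subtype.val h1
      rw [AddSubmonoidClass.coe_finsetSum] at h4
      rw [Pi.zero_apply, ← Submodule.coe_zero (p := X.W (w - n)), ← h4]
      refine Finset.sum_congr rfl fun j _ => ?_
      rw [AddSubmonoidClass.coe_finsetSum]
      simp only [y, map_sum, map_smul, Finset.smul_sum]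
      refine Finset.sum_congr rfl fun l _ => ?_
      change (n.choose j : Ω) • g l (t - j) • (X.Nh ^ j) ((X.Nv ^ (n - j)) (b1 l)) =
        g l (t - j) • ((n.choose j : Ω) • (X.Nh ^ j) ((X.Nv ^ (n - j)) (b1 l)))
      rw [smul_comm]

omit [IsAlgClosed Ω] in
theorem finrank_of_purAt (hq : 1 < q) {w : ℤ} {n : ℕ} {c : Ω} (h : X.PurAt w n c) :
    finrank Ω (X.W (w + n)) = finrank Ω (X.W (w - n)) := by
  have hm : ∀ x ∈ X.W (w + n), (X.N c ^ n) x ∈ X.W (w - n) := by
    intro x hx
    rw [N_pow, LinearMap.sum_apply]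
    exact Submodule.sum_mem _ fun j _ => Submodule.smul_mem _ _ (X.pow_W hq w n j x hx)
  let B : X.W (w + n) →ₗ[Ω] X.W (w - n) := (X.N c ^ n).restrict hm
  have hbij : Function.Bijective B := by
    constructor
    · rw [← LinearMap.ker_eq_bot, LinearMap.ker_eq_bot']
      intro z hz
      exact Subtype.ext (h.1 z z.2 (congrArg Subtype.val hz))
    · rintro ⟨y, hy⟩
      obtain ⟨x, hx, hxy⟩ := h.2 y hy
      exact ⟨⟨x, hx⟩, Subtype.ext hxy⟩
  exact (LinearEquiv.ofBijective B hbij).finrank_eq

/-- Hard Lefschetz for almost all `c` in every degree implies weight-monodromy for almost all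
`c`. -/
theorem finite_of_poly (hq : 1 < q) {w : ℤ}
    (h : ∀ n : ℕ, ∃ p : Polynomial Ω, p ≠ 0 ∧ ∀ c, p.eval c ≠ 0 → X.PurAt w n c) :
    {c : Ω | ¬ (X.fib c).WM w}.Finite := by
  choose p hp hpc using h
  obtain ⟨a, ha⟩ := X.Nh_nilp
  obtain ⟨b, hb⟩ := X.Nv_nilp
  have hN : ∀ (c : Ω) (n : ℕ), a + b ≤ n → X.N c ^ n = 0 := by
    intro c n hn
    have h : Commute (c • X.Nh) X.Nv := by
      ext x
      simp [X.comm]
    exact h.add_pow_eq_zero_of_add_le_succ_of_pow_eq_zero (m := a) (n := b)
      (by rw [smul_pow, ha, smul_zero]) hb (by omega)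
  refine ((Finset.range (a + b)).finite_toSet.biUnion (t := fun n => {c | (p n).IsRoot c})
    (fun n _ => ?_)).subset ?_
  · exact (Polynomial.finite_setOfPred_isRoot (hp n))
  · intro c hc
    by_contra h
    apply hc
    rw [Pool.WMC.wmp_thm hq]
    intro n
    rcases lt_or_ge n (a + b) with hn | hn
    · exact hpc n c fun h0 => h (Set.mem_biUnion (x := n) (by simpa using hn) h0)
    · obtain ⟨c0, hc0⟩ : ∃ c0, (p n).eval c0 ≠ 0 := by
        by_contra h1
        push Not at h1
        exact hp n (Polynomial.funext (by simpa using h1))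
      obtain ⟨h1, h2⟩ := hpc n c0 hc0
      constructor
      · intro x hx _
        exact h1 x hx (by rw [hN c0 n hn]; rfl)
      · intro y hy
        obtain ⟨x, _, hxy⟩ := h2 y hy
        refine ⟨0, Submodule.zero_mem _, ?_⟩
        rw [map_zero, ← hxy, hN c0 n hn]; rfl

/-- If the graded pieces satisfy weight-monodromy, then so do all fibres `c Nh + Nv`, except for
finitely many `c`. -/
theorem finite_exceptions (hq : 1 < q) {w : ℤ} (hG : ∀ r, (X.G r).WM (w + r)) :
    {c : Ω | ¬ (X.fib c).WM w}.Finite := by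
  have hG' : ∀ r, (X.G r).Pur (w + r) := fun r => (Pool.WMC.wmp_thm hq _ _).1 (hG r)
  refine X.finite_of_poly hq fun n => ?_
  obtain ⟨p, hp, hp0⟩ := X.det_poly hq w n (X.finrank_W hq hG' n)
  refine ⟨p, fun h => ?_, fun c => (hp c).1⟩
  obtain ⟨y, hy, hs, hw, h0⟩ := hp0 h
  exact hy (X.seq_zero hq hG' n y hs hw h0)

/-- If one fibre satisfies weight-monodromy, then so do all fibres with finitely many exceptions. -/
theorem finite_of_one (hq : 1 < q) {w : ℤ} {c0 : Ω} (h : (X.fib c0).WM w) :
    {c : Ω | ¬ (X.fib c).WM w}.Finite := by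
  rw [Pool.WMC.wmp_thm hq] at h
  refine X.finite_of_poly hq fun n => ?_
  have h1 : X.PurAt w n c0 := h n
  obtain ⟨p, hp, -⟩ := X.det_poly hq w n (X.finrank_of_purAt hq h1)
  refine ⟨p, fun h2 => ?_, fun c => (hp c).1⟩
  have h3 := (hp c0).2 h1
  rw [h2, Polynomial.eval_zero] at h3
  exact h3 rfl

end Lim

end Pool.H87.NR

end
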