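import Pool.Agent.H9.AK.Defs

/-!
Similarity is symmetric (MP_d037d4_ag).
-/

namespace Pool.H87.NR

open Pool.H9.WMC

theorem sim_symm {Ω : Type} [Field Ω] [CharZero Ω] {q q' : ℕ} {M : FN q Ω} {M' : FN q' Ω}
    (h : Pool.H9.AK.FN.Sim M M') : Pool.H9.AK.FN.Sim M' M := by
  obtain ⟨m, n, c, e, hm, hn, hqq, hc, hF, hN⟩ := h
  refine ⟨n, m, c⁻¹, e.symm, hn, hm, hqq.symm, inv_ne_zero hc, fun x => ?_, fun x => ?_⟩
  · apply e.injective
    have h1 := hF (e.symm x)
    rw [e.apply_symm_apply] at h1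
    rw [h1]
    exact e.apply_symm_apply _
  · apply e.injective
    have h1 := hN (e.symm x)
    rw [e.apply_symm_apply] at h1
    rw [map_smul, h1, smul_smul, inv_mul_cancel₀ hc, one_smul]
    exact e.apply_symm_apply _

end Pool.H87.NR
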