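import Pool.Agent.H9.AK.Defs

/-!
The linear algebra of a semistable degeneration over a `p`-adic field (MP_d037d4_ag).
-/

noncomputable section

namespace Pool.H87.NR

open Module Pool.H73.WM Pool.H9.WMC

variable {q : ℕ} {Ω : Type} [Field Ω] [CharZero Ω]

/-! ### Operators on vector spaces -/

section
variable {k : Type} [Field k] {U V W : Type} [AddCommGroup U] [Module k U] [AddCommGroup V]
  [Module k V] [AddCommGroup W] [Module k W]

/-- The isomorphism `e` carries `T ⊕ S` to `R`. -/
def SumOp (e : (U × V) ≃ₗ[k] W) (T : U →ₗ[k] U) (S : V →ₗ[k] V) (R : W →ₗ[k] W) : Prop :=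
  ∀ x y, R (e (x, y)) = e (T x, S y)

/-- `π` identifies `U` with the quotient `A / A'`. -/
def IsQuotient (A A' : Submodule k V) (π : A →ₗ[k] U) : Prop :=
  Function.Surjective π ∧ ∀ x : A, π x = 0 ↔ (x : V) ∈ A'

/-- `S` is the operator induced by `T`: `π (T x) = S (π x)`. -/
def Induces (A : Submodule k V) (π : A →ₗ[k] U) (T : V →ₗ[k] V) (S : U →ₗ[k] U) : Prop :=
  ∀ x x' : A, (x' : V) = T x → π x' = S (π x)

end

/-! ### Objects built from given ones -/

/-- `P` is the direct sum of `M` and `M'`. -/
def IsSum (M M' P : FN q Ω) : Prop :=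
  ∃ e : (M.V × M'.V) ≃ₗ[Ω] P.V, SumOp e M.F M'.F P.F ∧ SumOp e M.N M'.N P.N

/-- `M` is the homology of the complex `A → B → C` at `B`. -/
def IsHomology (A B C : FN q Ω) (f : A.V →ₗ[Ω] B.V) (g : B.V →ₗ[Ω] C.V) (M : FN q Ω) : Prop :=
  A.IsHom B f ∧ B.IsHom C g ∧ (∀ x, g (f x) = 0) ∧
    ∃ h : LinearMap.ker g →ₗ[Ω] M.V, IsQuotient (LinearMap.ker g) (LinearMap.range f) h ∧
      Induces (LinearMap.ker g) h B.F M.F ∧ Induces (LinearMap.ker g) h B.N M.N

/-- The objects, with a weight, which are built from the objects in `S` (where `S w M` means that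
`M` is an object of weight `w` in the given class) by Tate twists, finite direct sums and homology
of complexes of objects of the same weight. -/
inductive Built (S : ℤ → FN q Ω → Prop) : ℤ → FN q Ω → Prop
  | of {w : ℤ} {M : FN q Ω} (h : S w M) : Built S w M
  | zero {w : ℤ} {M : FN q Ω} (h : ∀ x : M.V, x = 0) : Built S w M
  | twist {w : ℤ} {M M' : FN q Ω} (h : Built S w M) (h' : M.Twist M') : Built S (w + 2) M'
  | sum {w : ℤ} {M M' P : FN q Ω} (h : Built S w M) (h' : Built S w M') (hP : IsSum M M' P) :
      Built S w P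
  | homology {w : ℤ} {A B C M : FN q Ω} {f : A.V →ₗ[Ω] B.V} {g : B.V →ₗ[Ω] C.V}
      (hA : Built S w A) (hB : Built S w B) (hC : Built S w C) (hM : IsHomology A B C f g M) :
      Built S w M

/-! ### Limits -/

/-- A space with a Frobenius `F`, the monodromy operator `Nv` of the `p`-adic field and a second
monodromy operator `Nh`, commuting with `Nv`. -/
structure Tri (q : ℕ) (Ω : Type) [Field Ω] [CharZero Ω] where
  /-- The space. -/
  V : Type
  [acg : AddCommGroup V]
  [mod : Module Ω V]
  [fin : FiniteDimensional Ω V]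
  /-- Frobenius. -/
  F : V →ₗ[Ω] V
  /-- Monodromy of the field. -/
  Nv : V →ₗ[Ω] V
  /-- Monodromy of the punctured disc. -/
  Nh : V →ₗ[Ω] V
  F_inj : ∀ x, F x = 0 → x = 0
  mixed : ∀ (α : Ω) (x : V), x ≠ 0 → F x = α • x → ∃ w : ℤ, IsWeil q α w
  Nv_nilp : IsNilpotent Nv
  Nh_nilp : IsNilpotent Nh
  comm : ∀ x, Nh (Nv x) = Nv (Nh x)
  NvF : ∀ x, Nv (F x) = (q : Ω) • F (Nv x)
  NhF : ∀ x, Nh (F x) = (q : Ω) • F (Nh x)

attribute [instance] Tri.acg Tri.mod Tri.fin

/-- The limit `V` of the cohomology groups of the fibres of a family, over a `p`-adic field, of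
varieties over a punctured disc, with unipotent monodromy: `F` is the Frobenius, `Nv` the monodromy
operator of the `p`-adic field, `Nh` the monodromy operator of the punctured disc, `L` the monodromy
filtration of `Nh`, and `G r` the `r`-th graded piece of `L`, with the operators induced by `F` and
`Nv`. -/
structure Lim (q : ℕ) (Ω : Type) [Field Ω] [CharZero Ω] extends Tri q Ω where
  /-- The monodromy filtration of `Nh`. -/
  L : ℤ → Submodule Ω V
  mono : IsMonodromyFiltration Nh L
  L_F : ∀ r, ∀ x ∈ L r, F x ∈ L r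
  L_Nv : ∀ r, ∀ x ∈ L r, Nv x ∈ L r
  /-- The graded pieces. -/
  G : ℤ → FN q Ω
  /-- The projections. -/
  π : ∀ r, L r →ₗ[Ω] (G r).V
  quot : ∀ r, IsQuotient (L r) (L (r - 1)) (π r)
  π_F : ∀ r, Induces (L r) (π r) F (G r).F
  π_N : ∀ r, Induces (L r) (π r) Nv (G r).N

theorem Lim.π_surj (X : Lim q Ω) (r : ℤ) : Function.Surjective (X.π r) := (X.quot r).1

theorem Lim.π_ker (X : Lim q Ω) (r : ℤ) (x : X.L r) : X.π r x = 0 ↔ (x : X.V) ∈ X.L (r - 1) :=
  (X.quot r).2 x

/-- `c Nh + Nv`. -/
def Tri.op (X : Tri q Ω) (c : Ω) : X.V →ₗ[Ω] X.V := c • X.Nh + X.Nv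

theorem Tri.op_nilp (X : Tri q Ω) (c : Ω) : IsNilpotent (X.op c) := by
  have h : Commute (c • X.Nh) X.Nv := by
    ext x
    simp [X.comm]
  exact h.isNilpotent_add (X.Nh_nilp.smul c) X.Nv_nilp

theorem Tri.op_F (X : Tri q Ω) (c : Ω) (x : X.V) : X.op c (X.F x) = (q : Ω) • X.F (X.op c x) := by
  simp only [Tri.op, LinearMap.add_apply, LinearMap.smul_apply, map_add, map_smul, X.NvF, X.NhF]
  module

/-- `(V, F, c Nh + Nv)`: the cohomology of the fibre at a point `s` of the punctured disc, `c` being
the valuation of the coordinate of `s` (normalised by the field). -/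
def Lim.fib (X : Lim q Ω) (c : Ω) : FN q Ω where
  V := X.V
  F := X.F
  N := X.op c
  F_inj := X.F_inj
  N_nilp := X.op_nilp c
  NF := X.op_F c
  mixed := X.mixed

/-! ### Degenerations -/

/-- The data given by a strictly semistable degeneration, over a `p`-adic field `K` whose residue
field has `q` elements, of smooth projective varieties.

* `Z`, `m`, `H`: the strata (`z` is a connected component of an intersection of `m z ≥ 1` components
  of the special fibre `X_b`) and their cohomology groups;
* `lim i`: the limit of the `i`-th cohomology groups;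
* `wss`: the graded pieces of the monodromy filtration of `Nh` (the `E_2`-terms of the weight
  spectral sequence) are built from the cohomology groups `H^j` of the strata `z` with
  `i ≤ j + m z ≤ i + 2`;
* `P`, `val`, `q'`, `fib`: the points `s`, with values in finite extensions `K'` of `K`, of a
  punctured disc around `b`, the valuation of the coordinate of `s` normalised by `K`, the number of
  elements of the residue field of `K'`, and the cohomology groups of the fibre at `s`. -/
structure Degeneration (q : ℕ) (Ω : Type) [Field Ω] [CharZero Ω] where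
  /-- The strata. -/
  Z : Type
  /-- The number of components. -/
  m : Z → ℕ
  /-- The cohomology groups of the strata. -/
  H : Z → ℕ → FN q Ω
  /-- The limits. -/
  lim : ℕ → Lim q Ω
  wss : ∀ (i : ℕ) (r : ℤ), Built (fun w M => ∃ (z : Z) (j : ℕ), (j : ℤ) = w ∧ i ≤ j + m z ∧
    j + m z ≤ i + 2 ∧ M = H z j) (i + r) ((lim i).G r)
  /-- The points. -/
  P : Type
  /-- The valuations of the coordinates. -/
  val : P → ℚ
  /-- The cardinalities of the residue fields. -/
  q' : P → ℕ
  one_lt : ∀ s, 1 < q' s
  /-- The cohomology groups of the fibres. -/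
  fib : (s : P) → ℕ → FN (q' s) Ω
  near : ∀ s i, Pool.H9.AK.FN.Sim (fib s i) ((lim i).fib (val s : Ω))

end Pool.H87.NR

end
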