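import Mathlib
import Pool.Agent.H43.WM.Rel

/-!
Hard Lefschetz for the sum of two commuting operators (MP_d037d4_ag).
-/

namespace Pool.H87.NR

open H43.WM

variable {F M : Type*} [Field F] [AddCommGroup M] [Module F M]

/-- A linear map with given restrictions to the members of an independent family. -/
theorem exists_ext {S : ℤ → Submodule F M} (h : iSupIndep S) (f : ∀ j, S j →ₗ[F] M) :
    ∃ g : Module.End F M, ∀ j (x : S j), g x = f j x := by
  classical
  have hinj : Function.Injective (DirectSum.coeLinearMap S) := h.dfinsupp_lsum_injective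
  obtain ⟨p, hp⟩ := (DirectSum.coeLinearMap S).exists_leftInverse_of_injective
    (LinearMap.ker_eq_bot.2 hinj)
  refine ⟨(DirectSum.toModule F ℤ M f).comp p, fun j x => ?_⟩
  have h1 : p (x : M) = DirectSum.lof F ℤ (fun j => S j) j x := by
    have h2 : (x : M) = DirectSum.coeLinearMap S (DirectSum.lof F ℤ (fun j => S j) j x) := by
      rw [DirectSum.coeLinearMap_lof]
    rw [h2, ← LinearMap.comp_apply, hp, LinearMap.id_apply]
  rw [LinearMap.comp_apply, h1, DirectSum.toModule_lof]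

/-- Hard Lefschetz. -/
structure HLf (l : Module.End F M) (S : ℤ → Submodule F M) : Prop where
  l_mem : ∀ j x, x ∈ S j → l x ∈ S (j + 2)
  inj : ∀ (n : ℕ) x, x ∈ S (-(n : ℤ)) → (l ^ n) x = 0 → x = 0
  surj : ∀ (n : ℕ) x, x ∈ S (n : ℤ) → ∃ y ∈ S (-(n : ℤ)), (l ^ n) y = x
  bdd : ∃ R : ℕ, ∀ j : ℤ, (R : ℤ) < |j| → ∀ x ∈ S j, x = 0
  indep : iSupIndep S

variable {l : Module.End F M} {S : ℤ → Submodule F M}

theorem HLf.pow_mem (h : HLf l S) (k : ℕ) {j j' : ℤ} {x : M} (hx : x ∈ S j)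
    (hj : j' = j + 2 * k) : (l ^ k) x ∈ S j' := by
  subst hj
  induction k with
  | zero => simpa using hx
  | succ k ih =>
    have := h.l_mem _ _ ih
    rw [pow_succ']
    have e : j + 2 * ((k + 1 : ℕ) : ℤ) = j + 2 * (k : ℤ) + 2 := by push_cast; ring
    rw [e]; exact this

/-- The step `s`. -/
theorem HLf.exists_s (h : HLf l S) : ∃ s : Module.End F M, ∀ (e : ℕ) x, x ∈ S (-(e : ℤ)) →
    s x ∈ S (-((e + 2 : ℕ) : ℤ)) ∧ (l ^ (e + 2)) (s x) = (l ^ (e + 1)) x := by
  classical
  -- for each index a linear map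
  have key : ∀ j : ℤ, ∃ f : S j →ₗ[F] M, ∀ (e : ℕ) (x : S j), j = -(e : ℤ) →
      f x ∈ S (-((e + 2 : ℕ) : ℤ)) ∧ (l ^ (e + 2)) (f x) = (l ^ (e + 1)) x := by
    intro j
    by_cases hj : ∃ e : ℕ, j = -(e : ℤ)
    · obtain ⟨e, rfl⟩ := hj
      have hb : ∀ x : S (-(e : ℤ)), ∃ y ∈ S (-((e + 2 : ℕ) : ℤ)),
          (l ^ (e + 2)) y = (l ^ (e + 1)) x := by
        intro x
        exact h.surj (e + 2) _ (h.pow_mem (e + 1) x.2 (by push_cast; ring))
      choose g hg hg' using hb
      have uniq : ∀ y z, y ∈ S (-((e + 2 : ℕ) : ℤ)) → z ∈ S (-((e + 2 : ℕ) : ℤ)) →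
          (l ^ (e + 2)) y = (l ^ (e + 2)) z → y = z := by
        intro y z hy hz hyz
        have := h.inj (e + 2) (y - z) (Submodule.sub_mem _ hy hz) (by rw [map_sub, hyz, sub_self])
        exact sub_eq_zero.1 this
      refine ⟨{ toFun := g, map_add' := ?_, map_smul' := ?_ }, ?_⟩
      · intro x y
        refine uniq _ _ (hg _) (Submodule.add_mem _ (hg _) (hg _)) ?_
        rw [hg', map_add, hg', hg', Submodule.coe_add, map_add]
      · intro c x
        refine uniq _ _ (hg _) (Submodule.smul_mem _ _ (hg _)) ?_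
        rw [hg', map_smul, hg', Submodule.coe_smul, map_smul]; rfl
      · intro e' x he
        have : e' = e := by
          have := neg_injective he
          exact_mod_cast this.symm
        subst this
        exact ⟨hg x, hg' x⟩
    · refine ⟨0, fun e x he => ?_⟩
      exact absurd ⟨e, he⟩ hj
  choose f hf using key
  obtain ⟨s, hs⟩ := exists_ext h.indep f
  refine ⟨s, fun e x hx => ?_⟩
  have := hf (-(e : ℤ)) e ⟨x, hx⟩ rfl
  rw [← hs] at this
  exact this

/-- The inverse `t` of `l ^ e : S (-e) → S e`. -/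
theorem HLf.exists_t (h : HLf l S) : ∃ t : Module.End F M, ∀ (e : ℕ) x, x ∈ S (e : ℤ) →
    t x ∈ S (-(e : ℤ)) ∧ (l ^ e) (t x) = x := by
  classical
  have key : ∀ j : ℤ, ∃ f : S j →ₗ[F] M, ∀ (e : ℕ) (x : S j), j = (e : ℤ) →
      f x ∈ S (-(e : ℤ)) ∧ (l ^ e) (f x) = x := by
    intro j
    by_cases hj : ∃ e : ℕ, j = (e : ℤ)
    · obtain ⟨e, rfl⟩ := hj
      have hb : ∀ x : S (e : ℤ), ∃ y ∈ S (-(e : ℤ)), (l ^ e) y = x := by
        intro x
        exact h.surj e _ x.2
      choose g hg hg' using hb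
      have uniq : ∀ y z, y ∈ S (-(e : ℤ)) → z ∈ S (-(e : ℤ)) →
          (l ^ e) y = (l ^ e) z → y = z := by
        intro y z hy hz hyz
        have := h.inj e (y - z) (Submodule.sub_mem _ hy hz) (by rw [map_sub, hyz, sub_self])
        exact sub_eq_zero.1 this
      refine ⟨{ toFun := g, map_add' := ?_, map_smul' := ?_ }, ?_⟩
      · intro x y
        refine uniq _ _ (hg _) (Submodule.add_mem _ (hg _) (hg _)) ?_
        rw [hg', map_add, hg', hg', Submodule.coe_add]
      · intro c x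
        refine uniq _ _ (hg _) (Submodule.smul_mem _ _ (hg _)) ?_
        rw [hg', map_smul, hg', Submodule.coe_smul]; rfl
      · intro e' x he
        have : e' = e := by exact_mod_cast he.symm
        subst this
        exact ⟨hg x, hg' x⟩
    · refine ⟨0, fun e x he => ?_⟩
      exact absurd ⟨e, he⟩ hj
  choose f hf using key
  obtain ⟨t, ht⟩ := exists_ext h.indep f
  refine ⟨t, fun e x hx => ?_⟩
  have := hf (e : ℤ) e ⟨x, hx⟩ rfl
  rw [← ht] at this
  exact this

/-- `lam` in degree `-e`. -/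
def lamN (l s : Module.End F M) (R e : ℕ) : Module.End F M :=
  ∑ k ∈ Finset.range (R + 1), ((e + 2 * k + 2 : ℕ) : F) • (l ^ k * s ^ (k + 1))

theorem lamN_apply (l s : Module.End F M) (R e : ℕ) (x : M) : lamN l s R e x =
    ∑ k ∈ Finset.range (R + 1), ((e + 2 * k + 2 : ℕ) : F) • (l ^ k) ((s ^ (k + 1)) x) := by
  simp [lamN, LinearMap.sum_apply]

/-- An operator `lam` which makes up an sl2-triple with `l`. -/
theorem HLf.exists_lam (h : HLf l S) : ∃ lam : Module.End F M, GF l lam S ∧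
    (∀ D : Module.End F M, (∀ j x, x ∈ S j → D x ∈ S j) → (∀ j x, x ∈ S j → D (l x) = l (D x)) →
      ∀ j x, x ∈ S j → D (lam x) = lam (D x)) ∧
    ∀ C : Submodule F M, (∀ j x, x ∈ S j → x ∈ C → l x ∈ C) →
      (∀ (n : ℕ) x, x ∈ S (-(n : ℤ)) → (l ^ n) x ∈ C → x ∈ C) →
      ∀ j x, x ∈ S j → x ∈ C → lam x ∈ C := by
  classical
  obtain ⟨R, hR⟩ := h.bdd
  obtain ⟨s, hs⟩ := h.exists_s
  obtain ⟨t, ht⟩ := h.exists_t
  -- the powers of s
  have hsp : ∀ (k e : ℕ) x, x ∈ S (-(e : ℤ)) → (s ^ k) x ∈ S (-((e + 2 * k : ℕ) : ℤ)) := by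
    intro k
    induction k with
    | zero => intro e x hx; simpa using hx
    | succ k ih =>
      intro e x hx
      rw [pow_succ', Module.End.mul_apply]
      have := (hs (e + 2 * k) _ (ih e x hx)).1
      have e1 : e + 2 * (k + 1) = e + 2 * k + 2 := by ring
      rw [e1]; exact this
  have hz : ∀ (k e : ℕ) x, R < e + 2 * k → x ∈ S (-(e : ℤ)) → (s ^ k) x = 0 := by
    intro k e x hk hx
    refine hR _ ?_ _ (hsp k e x hx)
    rw [abs_neg, abs_of_nonneg (by positivity)]
    exact_mod_cast hk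
  -- (P1)
  have p1 : ∀ (e : ℕ) x, x ∈ S (-(e : ℤ)) → lamN l s R e x ∈ S (-((e + 2 : ℕ) : ℤ)) := by
    intro e x hx
    rw [lamN_apply]
    refine Submodule.sum_mem _ fun k _ => Submodule.smul_mem _ _ ?_
    exact h.pow_mem k (hsp (k + 1) e x hx) (by push_cast; ring)
  -- (P2)
  have p2 : ∀ (e : ℕ) x, x ∈ S (-(e : ℤ)) →
      lamN l s R e x = l (lamN l s R (e + 2) (s x)) + ((e + 2 : ℕ) : F) • s x := by
    intro e x hx
    rw [lamN_apply, lamN_apply, map_sum, Finset.sum_range_succ' (n := R),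
      Finset.sum_range_succ (n := R)]
    have h0 : (s ^ (R + 1)) (s x) = 0 := by
      apply hz (R + 1) (e + 2) (s x) (by omega)
      exact (hs e x hx).1
    rw [h0]
    simp only [map_zero, smul_zero, add_zero, mul_zero, zero_add, pow_zero, pow_one,
      Module.End.one_apply]
    congr 1
    refine Finset.sum_congr rfl fun k _ => ?_
    rw [map_smul]
    have e1 : e + 2 * (k + 1) + 2 = e + 2 + 2 * k + 2 := by ring
    rw [e1, pow_succ' l k, Module.End.mul_apply, pow_succ s (k + 1), Module.End.mul_apply]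
  -- (P3)
  have p3 : ∀ (e : ℕ) x, x ∈ S (-((e + 2 : ℕ) : ℤ)) → s (l x) = x := by
    intro e x hx
    have h1 : l x ∈ S (-(e : ℤ)) := by
      have := h.l_mem _ _ hx
      have e1 : -((e + 2 : ℕ) : ℤ) + 2 = -(e : ℤ) := by push_cast; ring
      rwa [e1] at this
    obtain ⟨h2, h3⟩ := hs e _ h1
    have h4 := h.inj (e + 2) (s (l x) - x) (Submodule.sub_mem _ h2 hx) (by
      rw [map_sub, h3, pow_succ l (e + 1), Module.End.mul_apply, sub_self])
    exact sub_eq_zero.1 h4
  -- lam
  obtain ⟨lam, hlam⟩ := exists_ext h.indep (fun j => if 0 ≤ -j then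
      (lamN l s R (-j).toNat).comp (S j).subtype else
      ((l ^ j.toNat * lamN l s R j.toNat * t + (j.toNat : F) • (l ^ (j.toNat - 1) * t)) :
        Module.End F M).comp (S j).subtype)
  have l1 : ∀ (e : ℕ) x, x ∈ S (-(e : ℤ)) → lam x = lamN l s R e x := by
    intro e x hx
    have := hlam (-(e : ℤ)) ⟨x, hx⟩
    rw [if_pos (by simp)] at this
    simpa using this
  have l2 : ∀ (e : ℕ) x, x ∈ S ((e + 1 : ℕ) : ℤ) →
      lam x = (l ^ (e + 1)) (lamN l s R (e + 1) (t x)) + ((e + 1 : ℕ) : F) • (l ^ e) (t x) := by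
    intro e x hx
    have := hlam ((e + 1 : ℕ) : ℤ) ⟨x, hx⟩
    rw [if_neg (by push_cast; omega)] at this
    simpa using this
  have l3 : ∀ (e : ℕ) x, x ∈ S ((e : ℕ) : ℤ) →
      lam x = (l ^ e) (lamN l s R e (t x)) + (e : F) • (l ^ (e - 1)) (t x) := by
    intro e x hx
    rcases Nat.eq_zero_or_pos e with rfl | he
    · have h1 : t x = x := by
        obtain ⟨h2, h3⟩ := ht 0 x hx
        simpa using h3
      rw [h1]
      simpa using l1 0 x (by simpa using hx)
    · obtain ⟨e, rfl⟩ : ∃ m, e = m + 1 := ⟨e - 1, by omega⟩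
      simpa using l2 e x hx
  have lmem : ∀ j x, x ∈ S j → lam x ∈ S (j - 2) := by
    intro j x hx
    rcases le_or_gt 0 j with hj | hj
    · obtain ⟨e, rfl⟩ := Int.eq_ofNat_of_zero_le hj
      rw [l3 e x hx]
      have h1 := (ht e x hx).1
      refine Submodule.add_mem _ (h.pow_mem e (p1 e _ h1) (by push_cast; ring)) ?_
      rcases Nat.eq_zero_or_pos e with rfl | he
      · simp
      · refine Submodule.smul_mem _ _ (h.pow_mem (e - 1) h1 ?_)
        rw [Nat.cast_sub he]; push_cast; ring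
    · obtain ⟨e, he⟩ := Int.eq_ofNat_of_zero_le (show 0 ≤ -j by omega)
      obtain rfl : j = -(e : ℤ) := by omega
      rw [l1 e x hx]
      have := p1 e x hx
      have e1 : -((e + 2 : ℕ) : ℤ) = -(e : ℤ) - 2 := by push_cast; ring
      rwa [e1] at this
  refine ⟨lam, ⟨h.l_mem, lmem, ?_, ⟨R, hR⟩⟩, ?_, ?_⟩
  · -- the relation
    intro j x hx
    rcases lt_or_ge j 0 with hj | hj
    · obtain ⟨e, he⟩ := Int.eq_ofNat_of_zero_le (show 0 ≤ -j by omega)
      obtain rfl : j = -(e : ℤ) := by omega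
      have he1 : 1 ≤ e := by omega
      have hlx : l x ∈ S (-(e : ℤ) + 2) := h.l_mem _ _ hx
      rcases Nat.eq_or_lt_of_le he1 with h1 | h1
      · -- e = 1
        subst h1
        have hlx' : l x ∈ S ((0 + 1 : ℕ) : ℤ) := by simpa using hlx
        have h2 : t (l x) = x := by
          obtain ⟨h3, h4⟩ := ht 1 (l x) (by simpa using hlx)
          have h5 := h.inj 1 (t (l x) - x) (Submodule.sub_mem _ h3 hx) (by
            rw [map_sub, h4]; simp)
          exact sub_eq_zero.1 h5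
        rw [l2 0 (l x) hlx', h2, l1 1 x hx]
        simp
      · obtain ⟨e, rfl⟩ : ∃ m, e = m + 2 := ⟨e - 2, by omega⟩
        have hlx' : l x ∈ S (-(e : ℤ)) := by
          have e1 : -((e + 2 : ℕ) : ℤ) + 2 = -(e : ℤ) := by push_cast; ring
          rwa [e1] at hlx
        rw [l1 (e + 2) x hx, l1 e (l x) hlx', p2 e (l x) hlx', p3 e x hx]
        push_cast
        module
    · obtain ⟨e, rfl⟩ := Int.eq_ofNat_of_zero_le hj
      have hlx : l x ∈ S ((e + 2 : ℕ) : ℤ) := by
        have := h.l_mem _ _ hx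
        exact_mod_cast this
      obtain ⟨h1, h2⟩ := ht e x hx
      obtain ⟨h3, h4⟩ := ht (e + 2) (l x) hlx
      have h5 : t (l x) = s (t x) := by
        obtain ⟨h6, h7⟩ := hs e (t x) h1
        have h8 := h.inj (e + 2) (t (l x) - s (t x)) (Submodule.sub_mem _ h3 h6) (by
          rw [map_sub, h4, h7, pow_succ', Module.End.mul_apply, h2, sub_self])
        exact sub_eq_zero.1 h8
      rw [l3 (e + 2) (l x) hlx, l3 e x hx, h5, p2 e (t x) h1]
      have h9 : ∀ y, (l ^ (e + 2)) y = l (l ((l ^ e) y)) := by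
        intro y
        rw [pow_succ', pow_succ']; rfl
      have h10 : ∀ y, (l ^ e) (l y) = l ((l ^ e) y) := by
        intro y
        rw [← Module.End.mul_apply, ← Module.End.mul_apply, ← pow_succ, ← pow_succ']
      have h11 : (l ^ (e + 1)) (s (t x)) = l ((l ^ e) (s (t x))) := by
        rw [pow_succ']; rfl
      have h12 : (l ^ (e + 1)) (t x) = l x := by
        rw [pow_succ', Module.End.mul_apply, h2]
      have h13 : (e : F) • l ((l ^ (e - 1)) (t x)) = (e : F) • x := by
        rcases Nat.eq_zero_or_pos e with h0 | h0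
        · simp [h0]
        · obtain ⟨m, rfl⟩ : ∃ m, e = m + 1 := ⟨e - 1, by omega⟩
          congr 1
          rw [Nat.add_sub_cancel, ← Module.End.mul_apply, ← pow_succ']
          exact h2
      simp only [map_add, map_smul, h9, h10, show e + 2 - 1 = e + 1 by omega, h11, h13]
      push_cast
      module
  · -- the commutant
    intro D hD hDl
    have dp : ∀ (k : ℕ) j x, x ∈ S j → D ((l ^ k) x) = (l ^ k) (D x) := by
      intro k
      induction k with
      | zero => intro j x _; simp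
      | succ k ih =>
        intro j x hx
        rw [pow_succ', Module.End.mul_apply, hDl _ _ (h.pow_mem k hx rfl), ih j x hx]; rfl
    have ds : ∀ (e : ℕ) x, x ∈ S (-(e : ℤ)) → D (s x) = s (D x) := by
      intro e x hx
      obtain ⟨h1, h2⟩ := hs e x hx
      obtain ⟨h3, h4⟩ := hs e (D x) (hD _ _ hx)
      have h5 := h.inj (e + 2) (D (s x) - s (D x)) (Submodule.sub_mem _ (hD _ _ h1) h3) (by
        rw [map_sub, h4, ← dp _ _ _ h1, h2, dp _ _ _ hx, sub_self])
      exact sub_eq_zero.1 h5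
    have dt : ∀ (e : ℕ) x, x ∈ S (e : ℤ) → D (t x) = t (D x) := by
      intro e x hx
      obtain ⟨h1, h2⟩ := ht e x hx
      obtain ⟨h3, h4⟩ := ht e (D x) (hD _ _ hx)
      have h5 := h.inj e (D (t x) - t (D x)) (Submodule.sub_mem _ (hD _ _ h1) h3) (by
        rw [map_sub, h4, ← dp _ _ _ h1, h2, sub_self])
      exact sub_eq_zero.1 h5
    have dsp : ∀ (k e : ℕ) x, x ∈ S (-(e : ℤ)) → D ((s ^ k) x) = (s ^ k) (D x) := by
      intro k
      induction k with
      | zero => intro e x _; simp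
      | succ k ih =>
        intro e x hx
        rw [pow_succ', Module.End.mul_apply, ds _ _ (hsp k e x hx), ih e x hx]; rfl
    have dn : ∀ (e : ℕ) x, x ∈ S (-(e : ℤ)) → D (lamN l s R e x) = lamN l s R e (D x) := by
      intro e x hx
      rw [lamN_apply, lamN_apply, map_sum]
      refine Finset.sum_congr rfl fun k _ => ?_
      rw [map_smul, dp _ _ _ (hsp (k + 1) e x hx), dsp _ _ _ hx]
    intro j x hx
    rcases le_or_gt 0 j with hj | hj
    · obtain ⟨e, rfl⟩ := Int.eq_ofNat_of_zero_le hj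
      have h1 := (ht e x hx).1
      rw [l3 e x hx, l3 e (D x) (hD _ _ hx), map_add, map_smul, dp _ _ _ (p1 e _ h1), dn _ _ h1,
        dp _ _ _ h1, dt e x hx]
    · obtain ⟨e, he⟩ := Int.eq_ofNat_of_zero_le (show 0 ≤ -j by omega)
      obtain rfl : j = -(e : ℤ) := by omega
      rw [l1 e x hx, l1 e (D x) (hD _ _ hx), dn e x hx]
  · -- the submodules
    intro C hC hC'
    have cp : ∀ (k : ℕ) j x, x ∈ S j → x ∈ C → (l ^ k) x ∈ C := by
      intro k
      induction k with
      | zero => intro j x _ hx; simpa using hx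
      | succ k ih =>
        intro j x hx hxC
        rw [pow_succ', Module.End.mul_apply]
        exact hC _ _ (h.pow_mem k hx rfl) (ih j x hx hxC)
    have cs : ∀ (e : ℕ) x, x ∈ S (-(e : ℤ)) → x ∈ C → s x ∈ C := by
      intro e x hx hxC
      obtain ⟨h1, h2⟩ := hs e x hx
      exact hC' (e + 2) _ h1 (by rw [h2]; exact cp _ _ _ hx hxC)
    have ct : ∀ (e : ℕ) x, x ∈ S (e : ℤ) → x ∈ C → t x ∈ C := by
      intro e x hx hxC
      obtain ⟨h1, h2⟩ := ht e x hx
      exact hC' e _ h1 (by rw [h2]; exact hxC)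
    have csp : ∀ (k e : ℕ) x, x ∈ S (-(e : ℤ)) → x ∈ C → (s ^ k) x ∈ C := by
      intro k
      induction k with
      | zero => intro e x _ hx; simpa using hx
      | succ k ih =>
        intro e x hx hxC
        rw [pow_succ', Module.End.mul_apply]
        exact cs _ _ (hsp k e x hx) (ih e x hx hxC)
    have cn : ∀ (e : ℕ) x, x ∈ S (-(e : ℤ)) → x ∈ C → lamN l s R e x ∈ C := by
      intro e x hx hxC
      rw [lamN_apply]
      exact Submodule.sum_mem _ fun k _ => Submodule.smul_mem _ _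
        (cp _ _ _ (hsp (k + 1) e x hx) (csp _ _ _ hx hxC))
    intro j x hx hxC
    rcases le_or_gt 0 j with hj | hj
    · obtain ⟨e, rfl⟩ := Int.eq_ofNat_of_zero_le hj
      have h1 := (ht e x hx).1
      have h2 := ct e x hx hxC
      rw [l3 e x hx]
      exact Submodule.add_mem _ (cp _ _ _ (p1 e _ h1) (cn _ _ h1 h2))
        (Submodule.smul_mem _ _ (cp _ _ _ h1 h2))
    · obtain ⟨e, he⟩ := Int.eq_ofNat_of_zero_le (show 0 ≤ -j by omega)
      obtain rfl : j = -(e : ℤ) := by omega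
      rw [l1 e x hx]
      exact cn e x hx hxC

/-- Hard Lefschetz for the sum of two commuting operators. -/
theorem hl_add [CharZero F] {l1 l2 : Module.End F M} {S1 S2 : ℤ → Submodule F M} (h1 : HLf l1 S1)
    (h2 : HLf l2 S2) (hc : ∀ x, l1 (l2 x) = l2 (l1 x))
    (h12 : ∀ j x, x ∈ S2 j → l1 x ∈ S2 j) (h21 : ∀ j x, x ∈ S1 j → l2 x ∈ S1 j)
    (c12 : ∀ (k : ℤ) (n : ℕ) x, x ∈ S1 (-(n : ℤ)) → (l1 ^ n) x ∈ S2 k → x ∈ S2 k)
    (c21 : ∀ (k : ℤ) (n : ℕ) x, x ∈ S2 (-(n : ℤ)) → (l2 ^ n) x ∈ S1 k → x ∈ S1 k)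
    (T : ℤ → Submodule F M) (hT : ∀ d, T d = ⨆ j : ℤ, S1 j ⊓ S2 (d - j)) (n : ℕ) :
    (∀ x ∈ T (-(n : ℤ)), ((l1 + l2) ^ n) x = 0 → x = 0) ∧
      ∀ x ∈ T (n : ℤ), ∃ y ∈ T (-(n : ℤ)), ((l1 + l2) ^ n) y = x := by
  obtain ⟨m1, g1, d1, k1⟩ := h1.exists_lam
  obtain ⟨m2, g2, d2, k2⟩ := h2.exists_lam
  have hl1 : ∀ k x, x ∈ S2 k → l1 x ∈ S2 k := h12
  have hm1 : ∀ j k x, x ∈ S1 j → x ∈ S2 k → m1 x ∈ S2 k := fun j k x hx hx' =>
    k1 (S2 k) (fun j x _ hx => h12 k x hx) (fun n x hx => c12 k n x hx) j x hx hx'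
  have hm2 : ∀ j k x, x ∈ S2 j → x ∈ S1 k → m2 x ∈ S1 k := fun j k x hx hx' =>
    k2 (S1 k) (fun j x _ hx => h21 k x hx) (fun n x hx => c21 k n x hx) j x hx hx'
  have e12 : ∀ j x, x ∈ S1 j → l2 (m1 x) = m1 (l2 x) :=
    d1 l2 h21 (fun j x _ => (hc x).symm)
  have e21 : ∀ j x, x ∈ S2 j → l1 (m2 x) = m2 (l1 x) :=
    d2 l1 h12 (fun j x _ => hc x)
  have hTm : ∀ d j x, x ∈ S1 j → x ∈ S2 (d - j) → x ∈ T d := by
    intro d j x hx hx'
    rw [hT]
    exact Submodule.mem_iSup_of_mem j ⟨hx, hx'⟩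
  have ind : ∀ (d : ℤ) (p : M → Prop), (∀ j x, x ∈ S1 j → x ∈ S2 (d - j) → p x) → p 0 →
      (∀ x y, p x → p y → p (x + y)) → ∀ x ∈ T d, p x := by
    intro d p hp h0 ha x hx
    rw [hT] at hx
    exact Submodule.iSup_induction _ (motive := p) hx (fun j y hy => hp j y hy.1 hy.2) h0 ha
  have gf : GF (l1 + l2) (m1 + m2) T := by
    refine ⟨?_, ?_, ?_, ?_⟩
    · intro d
      refine ind d _ ?_ (by simp) ?_
      · intro j x hx hx'
        rw [LinearMap.add_apply]
        refine Submodule.add_mem _ (hTm _ (j + 2) _ (g1.l_mem _ _ hx) ?_)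
          (hTm _ j _ (h21 _ _ hx) ?_)
        · have e : d + 2 - (j + 2) = d - j := by ring
          rw [e]; exact h12 _ _ hx'
        · have e : d + 2 - j = d - j + 2 := by ring
          rw [e]; exact g2.l_mem _ _ hx'
      · intro x y hx hy
        rw [map_add]; exact Submodule.add_mem _ hx hy
    · intro d
      refine ind d _ ?_ (by simp) ?_
      · intro j x hx hx'
        rw [LinearMap.add_apply]
        refine Submodule.add_mem _ (hTm _ (j - 2) _ (g1.lam_mem _ _ hx) ?_)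
          (hTm _ j _ (hm2 _ _ _ hx' hx) ?_)
        · have e : d - 2 - (j - 2) = d - j := by ring
          rw [e]; exact hm1 _ _ _ hx hx'
        · have e : d - 2 - j = d - j - 2 := by ring
          rw [e]; exact g2.lam_mem _ _ hx'
      · intro x y hx hy
        rw [map_add]; exact Submodule.add_mem _ hx hy
    · intro d
      refine ind d _ ?_ (by simp) ?_
      · intro j x hx hx'
        have r1 := g1.ll j x hx
        have r2 := g2.ll (d - j) x hx'
        have r3 := e12 j x hx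
        have r4 := e21 (d - j) x hx'
        simp only [LinearMap.add_apply, map_add, r1, r2, r3, r4]
        push_cast
        module
      · intro x y hx hy
        simp only [map_add, smul_add, hx, hy]
        abel
    · obtain ⟨R1, hR1⟩ := h1.bdd
      obtain ⟨R2, hR2⟩ := h2.bdd
      refine ⟨R1 + R2, fun d hd => ?_⟩
      refine ind d _ ?_ rfl ?_
      · intro j x hx hx'
        by_cases hj : (R1 : ℤ) < |j|
        · exact hR1 j hj x hx
        · refine hR2 (d - j) ?_ x hx'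
          have : |d| ≤ |d - j| + |j| := by
            have := abs_add_le (d - j) j
            simpa using this
          push_cast at hd
          omega
      · intro x y hx hy
        rw [hx, hy, add_zero]
  exact ⟨fun x hx h0 => gf.s1 n hx h0, fun x hx => gf.s2 n hx⟩

end Pool.H87.NR
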