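import Pool.Agent.H87.NR.Hom
import Pool.Agent.H87.NR.Lam
import Pool.Agent.H73.WMUnique

/-!
The graded object of a limit, and hard Lefschetz for `Nh + Nv` on it (MP_d037d4_ag).
-/

noncomputable section

namespace Pool.H87.NR

open Module Module.End Pool.H73.WM Pool.H9.WMC Pool.H9.WMC.FN

variable {q : ℕ} {Ω : Type} [Field Ω] [CharZero Ω]

namespace Lim

variable (X : Lim q Ω)

/-- The map induced by `Nh` on the graded pieces. -/
theorem exists_nu (r : ℤ) : ∃ ν : (X.G (r + 2)).V →ₗ[Ω] (X.G r).V,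
    ∀ (x : X.L (r + 2)) (x' : X.L r), (x' : X.V) = X.Nh x → ν (X.π (r + 2) x) = X.π r x' := by
  have hm : ∀ x : X.L (r + 2), X.Nh x ∈ X.L r := by
    intro x
    have := X.mono.shift _ _ x.2
    rwa [add_sub_cancel_right] at this
  let g : X.L (r + 2) →ₗ[Ω] (X.G r).V :=
    (X.π r).comp ((X.Nh.comp (X.L (r + 2)).subtype).codRestrict (X.L r) hm)
  have hg : LinearMap.ker (X.π (r + 2)) ≤ LinearMap.ker g := by
    intro x hx
    rw [LinearMap.mem_ker] at hx ⊢
    rw [X.π_ker] at hx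
    change X.π r _ = 0
    rw [X.π_ker]
    have := X.mono.shift _ _ hx
    have e : r + 2 - 1 - 2 = r - 1 := by ring
    rw [e] at this
    exact this
  refine ⟨((LinearMap.ker (X.π (r + 2))).liftQ g hg).comp
    ((X.π (r + 2)).quotKerEquivOfSurjective (X.π_surj _)).symm.toLinearMap, ?_⟩
  intro x x' hx
  have e1 : ((X.π (r + 2)).quotKerEquivOfSurjective (X.π_surj _)).symm (X.π (r + 2) x) =
      Submodule.Quotient.mk x := by
    rw [LinearEquiv.symm_apply_eq]
    rfl
  change ((LinearMap.ker (X.π (r + 2))).liftQ g hg)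
    (((X.π (r + 2)).quotKerEquivOfSurjective (X.π_surj _)).symm (X.π (r + 2) x)) = _
  rw [e1]
  change g x = _
  change X.π r _ = X.π r x'
  congr 1
  ext
  exact hx.symm

/-- The map induced by `Nh` on the graded pieces. -/
def ν (r : ℤ) : (X.G (r + 2)).V →ₗ[Ω] (X.G r).V := (X.exists_nu r).choose

theorem ν_π (r : ℤ) (x : X.L (r + 2)) (x' : X.L r) (h : (x' : X.V) = X.Nh x) :
    X.ν r (X.π (r + 2) x) = X.π r x' := (X.exists_nu r).choose_spec x x' h

theorem Nh_mem {r : ℤ} {x : X.V} (hx : x ∈ X.L (r + 2)) : X.Nh x ∈ X.L r := by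
  have := X.mono.shift _ _ hx
  rwa [add_sub_cancel_right] at this

theorem ν_F (r : ℤ) (a : (X.G (r + 2)).V) :
    X.ν r ((X.G (r + 2)).F a) = (q : Ω) • (X.G r).F (X.ν r a) := by
  obtain ⟨x, rfl⟩ := X.π_surj _ a
  let y : X.L (r + 2) := ⟨X.F x, X.L_F _ _ x.2⟩
  let z : X.L r := ⟨X.Nh x, X.Nh_mem x.2⟩
  let z' : X.L r := ⟨X.F z, X.L_F _ _ z.2⟩
  rw [← X.π_F (r + 2) x y rfl, X.ν_π r x z rfl, ← X.π_F r z z' rfl, ← map_smul]
  refine X.ν_π r y _ ?_
  change (q : Ω) • X.F (X.Nh x) = X.Nh (X.F x)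
  rw [X.NhF]

theorem ν_N (r : ℤ) (a : (X.G (r + 2)).V) :
    X.ν r ((X.G (r + 2)).N a) = (X.G r).N (X.ν r a) := by
  obtain ⟨x, rfl⟩ := X.π_surj _ a
  let y : X.L (r + 2) := ⟨X.Nv x, X.L_Nv _ _ x.2⟩
  let z : X.L r := ⟨X.Nh x, X.Nh_mem x.2⟩
  let z' : X.L r := ⟨X.Nv z, X.L_Nv _ _ z.2⟩
  rw [← X.π_N (r + 2) x y rfl, X.ν_π r x z rfl, ← X.π_N r z z' rfl]
  refine X.ν_π r y _ ?_
  change X.Nv (X.Nh x) = X.Nh (X.Nv x)
  rw [X.comm]

/-- The graded object. -/
abbrev U : Type := ∀ r : ℤ, (X.G r).V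

/-- The operator `Nh` on the graded object. -/
def nh : Module.End Ω X.U := LinearMap.pi fun r => (X.ν r).comp (LinearMap.proj (r + 2))

/-- The operator `Nv` on the graded object. -/
def nv : Module.End Ω X.U := LinearMap.pi fun r => ((X.G r).N).comp (LinearMap.proj r)

theorem nh_apply (z : X.U) (r : ℤ) : X.nh z r = X.ν r (z (r + 2)) := rfl

theorem nv_apply (z : X.U) (r : ℤ) : X.nv z r = (X.G r).N (z r) := rfl

theorem nv_pow (n : ℕ) (z : X.U) (r : ℤ) : (X.nv ^ n) z r = ((X.G r).N ^ n) (z r) := by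
  induction n with
  | zero => rfl
  | succ n ih => rw [pow_succ', pow_succ', Module.End.mul_apply, Module.End.mul_apply, nv_apply, ih]

theorem n_comm (z : X.U) : X.nh (X.nv z) = X.nv (X.nh z) := by
  funext r
  rw [nh_apply, nv_apply, nv_apply, nh_apply, ν_N]

/-- The elements of degree `-j` (for `Nh`). -/
def S1 (j : ℤ) : Submodule Ω X.U where
  carrier := {z | ∀ r, r ≠ -j → z r = 0}
  zero_mem' _ _ := rfl
  add_mem' {a b} ha hb r hr := by
    change a r + b r = 0
    rw [ha r hr, hb r hr, add_zero]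
  smul_mem' c a ha r hr := by
    change c • a r = 0
    rw [ha r hr, smul_zero]

theorem mem_S1 {j : ℤ} {z : X.U} : z ∈ X.S1 j ↔ ∀ r, r ≠ -j → z r = 0 := Iff.rfl

/-- The elements of degree `-k` (for `Nv`). -/
def S2 (w k : ℤ) : Submodule Ω X.U where
  carrier := {z | ∀ r, z r ∈ (X.G r).wt (w + r - k)}
  zero_mem' _ := Submodule.zero_mem _
  add_mem' ha hb r := Submodule.add_mem _ (ha r) (hb r)
  smul_mem' c _ ha r := Submodule.smul_mem _ c (ha r)

theorem mem_S2 {w k : ℤ} {z : X.U} : z ∈ X.S2 w k ↔ ∀ r, z r ∈ (X.G r).wt (w + r - k) := Iff.rfl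

theorem bounded : ∃ R : ℕ, ∀ r : ℤ, (R : ℤ) < |r| → ∀ a : (X.G r).V, a = 0 := by
  obtain ⟨b, hb⟩ := X.mono.bot
  obtain ⟨t, ht⟩ := X.mono.top
  refine ⟨b.natAbs + t.natAbs + 1, fun r hr a => ?_⟩
  obtain ⟨x, rfl⟩ := X.π_surj _ a
  rcases le_or_gt 0 r with h | h
  · rw [X.π_ker]
    have : X.L t ≤ X.L (r - 1) := X.mono.mono (by rw [abs_of_nonneg h] at hr; omega)
    rw [ht] at this
    exact this trivial
  · have h1 : X.L r ≤ X.L b := X.mono.mono (by rw [abs_of_neg h] at hr; omega)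
    rw [hb] at h1
    have h2 : x = 0 := by
      ext
      exact (Submodule.mem_bot Ω).1 (h1 x.2)
    rw [h2, map_zero]

theorem single_mem (r : ℤ) (a : (X.G r).V) : (Pi.single r a : X.U) ∈ X.S1 (-r) := by
  intro r' hr
  rw [neg_neg] at hr
  exact Pi.single_eq_of_ne hr _

theorem eq_single {n : ℤ} {z : X.U} (h : z ∈ X.S1 (-n)) : z = Pi.single n (z n) := by
  funext r
  by_cases hr : r = n
  · subst hr
    rw [Pi.single_eq_same]
  · rw [Pi.single_eq_of_ne hr]
    exact h r (by rwa [neg_neg])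

theorem nh_single (r : ℤ) (x : X.L (r + 2)) (x' : X.L r) (h : (x' : X.V) = X.Nh x) :
    X.nh (Pi.single (r + 2) (X.π (r + 2) x) : X.U) = Pi.single r (X.π r x') := by
  funext r'
  rw [nh_apply]
  by_cases hr : r' = r
  · subst hr
    rw [Pi.single_eq_same, Pi.single_eq_same, X.ν_π r' x x' h]
  · rw [Pi.single_eq_of_ne hr, Pi.single_eq_of_ne (by omega), map_zero]

theorem nh_pow_single (k : ℕ) : ∀ (r s : ℤ) (_ : s = r + 2 * k) (x : X.L s) (x' : X.L r)
    (_ : (x' : X.V) = (X.Nh ^ k) x),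
    (X.nh ^ k) (Pi.single s (X.π s x) : X.U) = Pi.single r (X.π r x') := by
  induction k with
  | zero =>
    intro r s hs x x' h
    obtain rfl : s = r := by simpa using hs
    have : x' = x := by ext; exact h
    rw [this]; rfl
  | succ k ih =>
    intro r s hs x x' h
    have hy : (X.Nh ^ k) (x : X.V) ∈ X.L (r + 2) := by
      have := X.mono.shift_pow k s x x.2
      have e : s - 2 * (k : ℤ) = r + 2 := by rw [hs]; push_cast; ring
      rwa [e] at this
    rw [pow_succ', Module.End.mul_apply,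
      ih (r + 2) s (by rw [hs]; push_cast; ring) x ⟨_, hy⟩ rfl]
    refine X.nh_single r ⟨_, hy⟩ x' ?_
    rw [h, pow_succ', Module.End.mul_apply]

theorem hl1 : HLf X.nh X.S1 where
  l_mem j z hz r hr := by
    rw [nh_apply, hz (r + 2) (by omega), map_zero]
  inj n z hz h := by
    have h1 := X.eq_single hz
    obtain ⟨x, hx⟩ := X.π_surj n (z n)
    have hm : (X.Nh ^ n) (x : X.V) ∈ X.L (-(n : ℤ)) := by
      have := X.mono.shift_pow n n x x.2
      have e : (n : ℤ) - 2 * (n : ℤ) = -n := by ring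
      rwa [e] at this
    rw [h1, ← hx, X.nh_pow_single n (-n) n (by ring) x ⟨_, hm⟩ rfl] at h
    have h2 := congrFun h (-(n : ℤ))
    rw [Pi.single_eq_same] at h2
    have h3 := (X.π_ker _ _).1 h2
    have h4 := X.mono.inj n x x.2 h3
    rw [h1, ← hx, (X.π_ker _ _).2 h4, Pi.single_zero]
  surj n z hz := by
    have hz' : z ∈ X.S1 (-(-(n : ℤ))) := by rwa [neg_neg]
    have h1 := X.eq_single hz'
    generalize z (-(n : ℤ)) = a at h1
    obtain ⟨y, hy⟩ := X.π_surj (-(n : ℤ)) a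
    obtain ⟨x, hx, hxy⟩ := X.mono.surj n y y.2
    have hm : (X.Nh ^ n) x ∈ X.L (-(n : ℤ)) := by
      have := X.mono.shift_pow n n x hx
      have e : (n : ℤ) - 2 * (n : ℤ) = -n := by ring
      rwa [e] at this
    refine ⟨Pi.single n (X.π n ⟨x, hx⟩), X.single_mem _ _, ?_⟩
    rw [X.nh_pow_single n (-n) n (by ring) ⟨x, hx⟩ ⟨_, hm⟩ rfl, h1, ← hy]
    congr 1
    rw [eq_comm, ← sub_eq_zero, ← map_sub, X.π_ker]
    exact hxy
  bdd := by
    obtain ⟨R, hR⟩ := X.bounded
    refine ⟨R, fun j hj z hz => ?_⟩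
    funext r
    by_cases hr : r = -j
    · subst hr
      exact hR _ (by rwa [abs_neg]) _
    · exact hz r hr
  indep := by
    rw [iSupIndep_def]
    intro j
    have h1 : (⨆ i, ⨆ (_ : i ≠ j), X.S1 i) ≤ LinearMap.ker (LinearMap.proj (-j) :
        X.U →ₗ[Ω] (X.G (-j)).V) := by
      refine iSup₂_le fun i hi z hz => ?_
      exact hz (-j) (by omega)
    rw [Submodule.disjoint_def]
    intro z hz hz'
    funext r
    by_cases hr : r = -j
    · subst hr
      exact h1 hz'
    · exact hz r hr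

theorem wt_ν (hq : 1 < q) (r v : ℤ) (a : (X.G (r + 2)).V) (ha : a ∈ (X.G (r + 2)).wt v) :
    X.ν r a ∈ (X.G r).wt (v - 2) := by
  refine GS_hom (f := X.ν r) (c := (q : Ω)⁻¹) (fun x => ?_) (fun α hα => ?_) a ha
  · rw [X.ν_F, smul_smul, inv_mul_cancel₀ (q_ne hq), one_smul]
  · exact IsWeil.mul hq hα isWeil_qinv

theorem ow_ν (hq : 1 < q) (r v : ℤ) (a : (X.G (r + 2)).V) (ha : a ∈ (X.G (r + 2)).ow v) :
    X.ν r a ∈ (X.G r).ow (v - 2) := by
  refine GS_hom (f := X.ν r) (c := (q : Ω)⁻¹) (fun x => ?_) (fun α hα => ?_) a ha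
  · rw [X.ν_F, smul_smul, inv_mul_cancel₀ (q_ne hq), one_smul]
  · obtain ⟨u, hu, hα⟩ := hα
    exact ⟨u + -2, by omega, IsWeil.mul hq hα isWeil_qinv⟩

theorem wt_le_ow (M : FN q Ω) {u v : ℤ} (h : u ≠ v) : M.wt u ≤ M.ow v :=
  GS_mono _ fun _ hα => ⟨u, h, hα⟩

/-- The elements whose components are sums of parts of the other weights. -/
def O2 (w k : ℤ) : Submodule Ω X.U where
  carrier := {z | ∀ r, z r ∈ (X.G r).ow (w + r - k)}
  zero_mem' _ := Submodule.zero_mem _
  add_mem' ha hb r := Submodule.add_mem _ (ha r) (hb r)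
  smul_mem' c _ ha r := Submodule.smul_mem _ c (ha r)

variable (w : ℤ)

theorem nh_S2 (hq : 1 < q) (k : ℤ) (z : X.U) (hz : z ∈ X.S2 w k) : X.nh z ∈ X.S2 w k := by
  intro r
  have := X.wt_ν hq r _ _ (hz (r + 2))
  have e : w + (r + 2) - k - 2 = w + r - k := by ring
  rw [e] at this
  exact this

theorem nh_O2 (hq : 1 < q) (k : ℤ) (z : X.U) (hz : z ∈ X.O2 w k) : X.nh z ∈ X.O2 w k := by
  intro r
  have := X.ow_ν hq r _ _ (hz (r + 2))
  have e : w + (r + 2) - k - 2 = w + r - k := by ring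
  rw [e] at this
  exact this

theorem hl2 (hq : 1 < q) (hG : ∀ r, (X.G r).Pur (w + r)) : HLf X.nv (X.S2 w) where
  l_mem k z hz r := by
    have := (X.G r).wt_N hq _ _ (hz r)
    have e : w + r - k - 2 = w + r - (k + 2) := by ring
    rw [e] at this
    exact this
  inj n z hz h := by
    funext r
    refine (hG r n).1 (z r) ?_ ?_
    · have := hz r
      rwa [sub_neg_eq_add] at this
    · rw [← nv_pow, h]; rfl
  surj n z hz := by
    have h := fun r => (hG r n).2 (z r) (hz r)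
    choose y hy hyz using h
    refine ⟨y, fun r => ?_, ?_⟩
    · rw [sub_neg_eq_add]; exact hy r
    · funext r
      rw [nv_pow, hyz]
  bdd := by
    obtain ⟨R, hR⟩ := X.bounded
    have h1 : ∀ r : ℤ, ∃ n : ℕ, ((X.G r).N) ^ n = 0 := fun r => (X.G r).N_nilp
    choose n hn using h1
    have hn' : ∀ (r : ℤ) (m : ℕ), n r ≤ m → ((X.G r).N) ^ m = 0 := fun r m hm =>
      pow_eq_zero_of_le hm (hn r)
    refine ⟨∑ r ∈ Finset.Icc (-(R : ℤ)) R, n r, fun k hk z hz => ?_⟩
    funext r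
    by_cases hr : (R : ℤ) < |r|
    · exact hR r hr _
    · have hr' : r ∈ Finset.Icc (-(R : ℤ)) R := by
        rw [not_lt, abs_le] at hr
        rw [Finset.mem_Icc]; exact hr
      have h2 : n r ≤ ∑ r ∈ Finset.Icc (-(R : ℤ)) R, n r :=
        Finset.single_le_sum (f := n) (fun _ _ => Nat.zero_le _) hr'
      rcases le_or_gt 0 k with h | h
      · obtain ⟨m, rfl⟩ := Int.eq_ofNat_of_zero_le h
        rw [abs_of_nonneg h] at hk
        obtain ⟨y, _, hyz⟩ := (hG r m).2 (z r) (hz r)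
        rw [← hyz, hn' r m (by omega)]; rfl
      · obtain ⟨m, hm⟩ := Int.eq_ofNat_of_zero_le (show 0 ≤ -k by omega)
        obtain rfl : k = -(m : ℤ) := by omega
        rw [abs_of_neg h] at hk
        refine (hG r m).1 (z r) ?_ ?_
        · have := hz r
          rwa [sub_neg_eq_add] at this
        · rw [hn' r m (by omega)]; rfl
  indep := by
    rw [iSupIndep_def]
    intro k
    have h1 : (⨆ i, ⨆ (_ : i ≠ k), X.S2 w i) ≤ X.O2 w k := by
      refine iSup₂_le fun i hi z hz r => ?_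
      exact wt_le_ow _ (by omega) (hz r)
    rw [Submodule.disjoint_def]
    intro z hz hz'
    funext r
    exact (X.G r).disj hq _ (hz r) (h1 hz' r)

/-- The elements of weight `w - d`. -/
def T (d : ℤ) : Submodule Ω X.U where
  carrier := {z | ∀ r, z r ∈ (X.G r).wt (w - d)}
  zero_mem' _ := Submodule.zero_mem _
  add_mem' ha hb r := Submodule.add_mem _ (ha r) (hb r)
  smul_mem' c _ ha r := Submodule.smul_mem _ c (ha r)

theorem T_eq (d : ℤ) : X.T w d = ⨆ j : ℤ, X.S1 j ⊓ X.S2 w (d - j) := by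
  classical
  apply le_antisymm
  · intro z hz
    obtain ⟨R, hR⟩ := X.bounded
    have h1 : z = ∑ r ∈ Finset.Icc (-(R : ℤ)) R, (Pi.single r (z r) : X.U) := by
      funext r
      rw [Finset.sum_apply]
      by_cases hr : (R : ℤ) < |r|
      · rw [hR r hr (z r), Finset.sum_eq_zero]
        intro r' _
        by_cases h : r = r'
        · subst h
          rw [Pi.single_eq_same]; exact hR r hr _
        · exact Pi.single_eq_of_ne h _
      · rw [not_lt, abs_le] at hr
        rw [Finset.sum_eq_single r, Pi.single_eq_same]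
        · intro r' _ h
          exact Pi.single_eq_of_ne (Ne.symm h) _
        · intro h
          exact absurd (Finset.mem_Icc.2 hr) h
    rw [h1]
    refine Submodule.sum_mem _ fun r _ => Submodule.mem_iSup_of_mem (-r) ⟨X.single_mem r _, ?_⟩
    intro r'
    by_cases h : r' = r
    · subst h
      rw [Pi.single_eq_same]
      have e : w + r' - (d - -r') = w - d := by ring
      rw [e]; exact hz r'
    · rw [Pi.single_eq_of_ne h]; exact Submodule.zero_mem _
  · refine iSup_le fun j z hz r => ?_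
    by_cases h : r = -j
    · subst h
      have := hz.2 (-j)
      have e : w + -j - (d - j) = w - d := by ring
      rwa [e] at this
    · rw [hz.1 r h]; exact Submodule.zero_mem _

variable [IsAlgClosed Ω]

theorem c12 (hq : 1 < q) (k : ℤ) (n : ℕ) (z : X.U) (hz : z ∈ X.S1 (-(n : ℤ)))
    (h : (X.nh ^ n) z ∈ X.S2 w k) : z ∈ X.S2 w k := by
  have pS : ∀ (m : ℕ) z, z ∈ X.S2 w k → (X.nh ^ m) z ∈ X.S2 w k := by
    intro m
    induction m with
    | zero => intro z hz; exact hz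
    | succ m ih =>
      intro z hz
      rw [pow_succ', Module.End.mul_apply]; exact X.nh_S2 w hq k _ (ih z hz)
  have pO : ∀ (m : ℕ) z, z ∈ X.O2 w k → (X.nh ^ m) z ∈ X.O2 w k := by
    intro m
    induction m with
    | zero => intro z hz; exact hz
    | succ m ih =>
      intro z hz
      rw [pow_succ', Module.End.mul_apply]; exact X.nh_O2 w hq k _ (ih z hz)
  obtain ⟨a, ha, b, hb, hab⟩ := (X.G n).decomp (w + n - k) (z n)
  have hz1 : z = Pi.single (n : ℤ) a + Pi.single (n : ℤ) b := by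
    rw [← Pi.single_add, ← hab]; exact X.eq_single hz
  have hA : (Pi.single (n : ℤ) a : X.U) ∈ X.S2 w k := by
    intro r
    by_cases hr : r = n
    · subst hr; rw [Pi.single_eq_same]; exact ha
    · rw [Pi.single_eq_of_ne hr]; exact Submodule.zero_mem _
  have hB : (Pi.single (n : ℤ) b : X.U) ∈ X.O2 w k := by
    intro r
    by_cases hr : r = n
    · subst hr; rw [Pi.single_eq_same]; exact hb
    · rw [Pi.single_eq_of_ne hr]; exact Submodule.zero_mem _
  have h1 : (X.nh ^ n) (Pi.single (n : ℤ) b : X.U) = 0 := by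
    have h2 : (X.nh ^ n) (Pi.single (n : ℤ) b : X.U) ∈ X.S2 w k := by
      have : (X.nh ^ n) (Pi.single (n : ℤ) b : X.U) =
          (X.nh ^ n) z - (X.nh ^ n) (Pi.single (n : ℤ) a : X.U) := by
        rw [← map_sub, hz1, add_sub_cancel_left]
      rw [this]
      exact Submodule.sub_mem _ h (pS n _ hA)
    have h3 := pO n _ hB
    funext r
    exact (X.G r).disj hq _ (h2 r) (h3 r)
  have h4 := X.hl1.inj n _ (X.single_mem n b) h1
  rw [hz1, h4, add_zero]
  exact hA

/-- Hard Lefschetz for `Nh + Nv` on the graded object. -/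
theorem hl (hq : 1 < q) (hG : ∀ r, (X.G r).Pur (w + r)) (n : ℕ) :
    (∀ z ∈ X.T w (-(n : ℤ)), ((X.nh + X.nv) ^ n) z = 0 → z = 0) ∧
      ∀ z ∈ X.T w (n : ℤ), ∃ y ∈ X.T w (-(n : ℤ)), ((X.nh + X.nv) ^ n) y = z := by
  refine hl_add X.hl1 (X.hl2 w hq hG) X.n_comm (X.nh_S2 w hq) ?_ (X.c12 w hq) ?_ (X.T w)
    (X.T_eq w) n
  · intro j z hz r hr
    rw [nv_apply, hz r hr, map_zero]
  · intro k n z hz h r hr
    refine (hG r n).1 (z r) ?_ ?_
    · have := hz r
      rwa [sub_neg_eq_add] at this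
    · rw [← nv_pow]; exact h r hr

end Lim

end Pool.H87.NR

end
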