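import Pool.Agent.H87.NR.Defs
import Pool.Agent.H83.WMC.TWI
import Pool.Agent.H62.WMC.WMP

/-!
Objects built from pure ones are pure (MP_d037d4_ag).
-/

noncomputable section

namespace Pool.H87.NR

open Module Pool.H73.WM Pool.H9.WMC

variable {q : ℕ} {Ω : Type} [Field Ω] [CharZero Ω]

/-- The restriction to a stable subspace. -/
def sub (M : FN q Ω) (W : Submodule Ω M.V) (hF : ∀ x ∈ W, M.F x ∈ W) (hN : ∀ x ∈ W, M.N x ∈ W) :
    FN q Ω where
  V := W
  F := M.F.restrict hF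
  N := M.N.restrict hN
  F_inj x h := by
    ext
    exact M.F_inj x (by simpa using congrArg Subtype.val h)
  N_nilp := by
    obtain ⟨n, hn⟩ := M.N_nilp
    refine ⟨n, ?_⟩
    ext x
    rw [Module.End.pow_restrict]
    simp [hn]
  NF x := by
    ext
    simp [M.NF]
  mixed α x hx h := M.mixed α x (fun h0 => hx (by ext; exact h0))
    (by simpa using congrArg Subtype.val h)

theorem sub_hom (M : FN q Ω) (W : Submodule Ω M.V) (hF : ∀ x ∈ W, M.F x ∈ W)
    (hN : ∀ x ∈ W, M.N x ∈ W) : (sub M W hF hN).IsHom M W.subtype where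
  F _ := rfl
  N _ := rfl

/-- The zero object. -/
def zeroObj (q : ℕ) (Ω : Type) [Field Ω] [CharZero Ω] : FN q Ω where
  V := PUnit
  F := 0
  N := 0
  F_inj _ _ := rfl
  N_nilp := ⟨1, by simp⟩
  NF _ := rfl
  mixed _ x hx := absurd (Subsingleton.elim x 0) hx

theorem pur_zero {M : FN q Ω} (h : ∀ x : M.V, x = 0) (w : ℤ) : M.Pur w :=
  fun _ => ⟨fun x _ _ => h x, fun y _ => ⟨0, Submodule.zero_mem _, by rw [h y, map_zero]⟩⟩

theorem zero_hom (M M' : FN q Ω) : M.IsHom M' 0 where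
  F _ := by simp
  N _ := by simp

variable [IsAlgClosed Ω]

/-- The kernel of a map of pure objects. -/
theorem pur_ker (hq : 1 < q) {B C : FN q Ω} {g : B.V →ₗ[Ω] C.V} (hg : B.IsHom C g) {w : ℤ}
    (hB : B.Pur w) (hC : C.Pur w) (hF : ∀ x ∈ LinearMap.ker g, B.F x ∈ LinearMap.ker g)
    (hN : ∀ x ∈ LinearMap.ker g, B.N x ∈ LinearMap.ker g) :
    (sub B (LinearMap.ker g) hF hN).Pur w := by
  refine fiv_thm hq (zeroObj q Ω) (zeroObj q Ω) (sub B (LinearMap.ker g) hF hN) B C 0 0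
    (LinearMap.ker g).subtype g (zero_hom _ _) (zero_hom _ _) (sub_hom _ _ _ _) hg ?_ ?_ ?_ w
    (pur_zero (fun _ => rfl) w) (pur_zero (fun _ => rfl) w) hB hC
  · intro x
    exact ⟨fun _ => ⟨0, rfl⟩, fun _ => rfl⟩
  · intro x
    refine ⟨fun h => ⟨0, ?_⟩, ?_⟩
    · have : x = 0 := Subtype.ext (p := fun y => y ∈ LinearMap.ker g) h
      rw [this]; rfl
    · rintro ⟨y, rfl⟩
      rfl
  · intro x
    constructor
    · intro h
      exact ⟨⟨x, h⟩, rfl⟩
    · rintro ⟨y, rfl⟩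
      exact y.2

theorem pur_homology (hq : 1 < q) {A B C M : FN q Ω} {f : A.V →ₗ[Ω] B.V} {g : B.V →ₗ[Ω] C.V}
    {w : ℤ} (hA : A.Pur w) (hB : B.Pur w) (hC : C.Pur w) (hM : IsHomology A B C f g M) :
    M.Pur w := by
  obtain ⟨hf, hg, hgf, h, ⟨hs, hk⟩, hF', hN'⟩ := hM
  have hF : ∀ x ∈ LinearMap.ker g, B.F x ∈ LinearMap.ker g := by
    intro x hx
    rw [LinearMap.mem_ker] at hx ⊢
    rw [hg.F, hx, map_zero]
  have hN : ∀ x ∈ LinearMap.ker g, B.N x ∈ LinearMap.ker g := by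
    intro x hx
    rw [LinearMap.mem_ker] at hx ⊢
    rw [hg.N, hx, map_zero]
  have hK := pur_ker hq hg hB hC hF hN
  let K := sub B (LinearMap.ker g) hF hN
  let f' : A.V →ₗ[Ω] K.V := f.codRestrict (LinearMap.ker g) hgf
  have hf' : A.IsHom K f' :=
    ⟨fun x => Subtype.ext (p := fun y => y ∈ LinearMap.ker g) (hf.F x),
      fun x => Subtype.ext (p := fun y => y ∈ LinearMap.ker g) (hf.N x)⟩
  have hh : K.IsHom M h := ⟨fun x => hF' x (K.F x) rfl, fun x => hN' x (K.N x) rfl⟩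
  refine fiv_thm hq A K M (zeroObj q Ω) (zeroObj q Ω) f' h 0 0 hf' hh (zero_hom _ _) (zero_hom _ _)
    ?_ ?_ ?_ w hA hK (pur_zero (fun _ => rfl) w) (pur_zero (fun _ => rfl) w)
  · intro x
    constructor
    · intro h0
      obtain ⟨a, ha⟩ := (hk x).1 h0
      exact ⟨a, Subtype.ext (p := fun y => y ∈ LinearMap.ker g) ha⟩
    · rintro ⟨a, rfl⟩
      exact (hk _).2 ⟨a, rfl⟩
  · intro x
    exact ⟨fun _ => hs x, fun _ => rfl⟩
  · intro x
    exact ⟨fun _ => ⟨0, rfl⟩, fun _ => rfl⟩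

theorem pur_sum (hq : 1 < q) {M M' P : FN q Ω} {w : ℤ} (h : M.Pur w) (h' : M'.Pur w)
    (hP : IsSum M M' P) : P.Pur w := by
  obtain ⟨e, hF, hN⟩ := hP
  unfold SumOp at hF hN
  have h1 : M.IsHom P (e.toLinearMap.comp (LinearMap.inl Ω M.V M'.V)) :=
    ⟨fun x => by simpa using (hF x 0).symm, fun x => by simpa using (hN x 0).symm⟩
  have h2 : P.IsHom M' ((LinearMap.snd Ω M.V M'.V).comp e.symm.toLinearMap) := by
    constructor
    · intro x
      obtain ⟨⟨a, b⟩, rfl⟩ := e.surjective x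
      simp [hF]
    · intro x
      obtain ⟨⟨a, b⟩, rfl⟩ := e.surjective x
      simp [hN]
  refine fiv_thm hq (zeroObj q Ω) M P M' (zeroObj q Ω) 0 _ _ 0 (zero_hom _ _) h1 h2 (zero_hom _ _)
    ?_ ?_ ?_ w (pur_zero (fun _ => rfl) w) h h' (pur_zero (fun _ => rfl) w)
  · intro x
    constructor
    · intro h0
      refine ⟨0, ?_⟩
      have : x = 0 := by simpa using h0
      rw [this]; rfl
    · rintro ⟨a, rfl⟩
      simp
  · intro x
    obtain ⟨⟨a, b⟩, rfl⟩ := e.surjective x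
    constructor
    · intro h0
      refine ⟨a, ?_⟩
      have : b = 0 := by simpa using h0
      simp [this]
    · rintro ⟨c, hc⟩
      have : (c, (0 : M'.V)) = (a, b) := e.injective (by simpa using hc)
      have h3 : b = 0 := (congrArg Prod.snd this).symm
      simp [h3]
  · intro x
    refine ⟨fun _ => ⟨e (0, x), by simp⟩, fun _ => rfl⟩

/-- Objects built from pure ones are pure. -/
theorem Built.pur (hq : 1 < q) {S : ℤ → FN q Ω → Prop} (hS : ∀ w M, S w M → M.Pur w) {w : ℤ}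
    {M : FN q Ω} (h : Built S w M) : M.Pur w := by
  induction h with
  | of h => exact hS _ _ h
  | zero h => exact pur_zero h _
  | twist _ h' ih => exact (twi_thm hq _ _ h' _).1 ih
  | sum _ _ hP ih ih' => exact pur_sum hq ih ih' hP
  | homology _ _ _ hM ih1 ih2 ih3 => exact pur_homology hq ih1 ih2 ih3 hM

end Pool.H87.NR

end
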