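import Pool.Agent.H87.NR.Gr

/-!
Weights and symbols (MP_d037d4_ag).
-/

noncomputable section

namespace Pool.H87.NR

open Module Module.End Pool.H73.WM Pool.H9.WMC Pool.H9.WMC.FN

variable {q : ℕ} {Ω : Type} [Field Ω] [CharZero Ω] [IsAlgClosed Ω]

namespace Lim

variable (X : Lim q Ω)

/-- The part of weight `v`. -/
def W (v : ℤ) : Submodule Ω X.V := GS X.F {α : Ω | IsWeil q α v}

/-- The subobject `L r`. -/
def K (r : ℤ) : FN q Ω := sub (X.fib 0) (X.L r) (X.L_F r) (fun x hx => by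
  change (((0 : Ω) • X.Nh + X.Nv : X.V →ₗ[Ω] X.V)) x ∈ X.L r
  rw [zero_smul, zero_add]
  exact X.L_Nv r x hx)

omit [IsAlgClosed Ω] in
theorem K_hom (r : ℤ) : (X.K r).IsHom (X.fib 0) (X.L r).subtype := sub_hom _ _ _ _

omit [IsAlgClosed Ω] in
theorem π_hom (r : ℤ) : (X.K r).IsHom (X.G r) (X.π r) where
  F x := X.π_F r x ((X.K r).F x) rfl
  N x := X.π_N r x ((X.K r).N x) (by
    change (((0 : Ω) • X.Nh + X.Nv : X.V →ₗ[Ω] X.V)) ((X.L r).subtype x) =
      X.Nv ((X.L r).subtype x)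
    rw [zero_smul, zero_add])

theorem π_wt (hq : 1 < q) (r v : ℤ) (x : X.L r) (hx : (x : X.V) ∈ X.W v) :
    X.π r x ∈ (X.G r).wt v := by
  obtain ⟨a, ha, b, hb, hab⟩ := (X.K r).decomp v x
  have h1 : b = 0 := by
    have h2 : (X.L r).subtype b ∈ (X.fib 0).wt v := by
      have h3 : (X.L r).subtype x = (X.L r).subtype a + (X.L r).subtype b := by
        rw [hab]; rfl
      have : (X.L r).subtype b = (X.L r).subtype x - (X.L r).subtype a := by
        rw [h3]; abel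
      rw [this]
      exact Submodule.sub_mem _ hx ((X.K_hom r).wt v a ha)
    exact Subtype.ext (p := fun y => y ∈ X.L r)
      ((X.fib 0).disj hq v h2 ((X.K_hom r).ow v b hb))
  have h4 : x = a := by
    rw [hab, h1]; exact add_zero a
  rw [h4]
  exact (X.π_hom r).wt v a ha

theorem lift_wt (hq : 1 < q) (r v : ℤ) (a : (X.G r).V) (ha : a ∈ (X.G r).wt v) :
    ∃ x : X.L r, (x : X.V) ∈ X.W v ∧ X.π r x = a := by
  obtain ⟨x, hx, hxa⟩ := wt_exact hq (A := X.K r) (B := X.G r) (C := zeroObj q Ω) (f := X.π r)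
    (g := 0) (X.π_hom r) (fun y => ⟨fun _ => X.π_surj r y, fun _ => rfl⟩) v ha rfl
  exact ⟨x, (X.K_hom r).wt v x hx, hxa⟩

omit [IsAlgClosed Ω] in
theorem Nh_W (hq : 1 < q) (v : ℤ) (x : X.V) (hx : x ∈ X.W v) : X.Nh x ∈ X.W (v - 2) := by
  refine GS_hom (f := X.Nh) (c := (q : Ω)⁻¹) (fun x => ?_) (fun α hα => ?_) x hx
  · rw [X.NhF, smul_smul, inv_mul_cancel₀ (q_ne hq), one_smul]
  · exact IsWeil.mul hq hα isWeil_qinv

omit [IsAlgClosed Ω] in
theorem Nv_W (hq : 1 < q) (v : ℤ) (x : X.V) (hx : x ∈ X.W v) : X.Nv x ∈ X.W (v - 2) := by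
  refine GS_hom (f := X.Nv) (c := (q : Ω)⁻¹) (fun x => ?_) (fun α hα => ?_) x hx
  · rw [X.NvF, smul_smul, inv_mul_cancel₀ (q_ne hq), one_smul]
  · exact IsWeil.mul hq hα isWeil_qinv

/-! ### Symbols -/

/-- The symbol of the sequence `y` with `y t ∈ L (m - 2 t)`. -/
def sym (m : ℤ) (y : ℤ → X.V) : X.U := by
  classical
  exact fun r => if h : 2 ∣ (m - r) ∧ y ((m - r) / 2) ∈ X.L r then
    X.π r ⟨y ((m - r) / 2), h.2⟩ else 0

omit [IsAlgClosed Ω] in
theorem sym_apply {m r t : ℤ} {y : ℤ → X.V} (hr : r = m - 2 * t) (hy : y t ∈ X.L r) :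
    X.sym m y r = X.π r ⟨y t, hy⟩ := by
  classical
  have h1 : (m - r) / 2 = t := by omega
  have h2 : 2 ∣ (m - r) ∧ y ((m - r) / 2) ∈ X.L r := ⟨by omega, by rw [h1]; exact hy⟩
  unfold sym
  rw [dif_pos h2]
  congr 1
  ext
  change y ((m - r) / 2) = y t
  rw [h1]

omit [IsAlgClosed Ω] in
theorem sym_odd {m r : ℤ} {y : ℤ → X.V} (hr : ¬ 2 ∣ (m - r)) : X.sym m y r = 0 := by
  classical
  unfold sym
  rw [dif_neg (fun h => hr h.1)]

/-- The operator `Nh` on sequences, with a shift. -/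
def sH : Module.End Ω (ℤ → X.V) := LinearMap.pi fun t => X.Nh.comp (LinearMap.proj (t - 1))

/-- The operator `Nv` on sequences. -/
def sK : Module.End Ω (ℤ → X.V) := LinearMap.pi fun t => X.Nv.comp (LinearMap.proj t)

omit [IsAlgClosed Ω] in
theorem sH_apply (y : ℤ → X.V) (t : ℤ) : X.sH y t = X.Nh (y (t - 1)) := rfl

omit [IsAlgClosed Ω] in
theorem sK_apply (y : ℤ → X.V) (t : ℤ) : X.sK y t = X.Nv (y t) := rfl

omit [IsAlgClosed Ω] in
theorem s_comm : Commute X.sH X.sK := by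
  ext y t
  change X.Nh (X.Nv (y (t - 1))) = X.Nv (X.Nh (y (t - 1)))
  rw [X.comm]

omit [IsAlgClosed Ω] in
theorem sH_pow (k : ℕ) (y : ℤ → X.V) (t : ℤ) : (X.sH ^ k) y t = (X.Nh ^ k) (y (t - k)) := by
  induction k generalizing t with
  | zero => simp
  | succ k ih =>
    rw [pow_succ', pow_succ', Module.End.mul_apply, Module.End.mul_apply, sH_apply, ih]
    congr 3
    push_cast; ring

omit [IsAlgClosed Ω] in
theorem sK_pow (k : ℕ) (y : ℤ → X.V) (t : ℤ) : (X.sK ^ k) y t = (X.Nv ^ k) (y t) := by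
  induction k with
  | zero => simp
  | succ k ih =>
    rw [pow_succ', pow_succ', Module.End.mul_apply, Module.End.mul_apply, sK_apply, ih]

omit [IsAlgClosed Ω] in
theorem s_pow (n : ℕ) (y : ℤ → X.V) (t : ℤ) : ((X.sH + X.sK) ^ n) y t =
    ∑ j ∈ Finset.range (n + 1), (n.choose j : Ω) • (X.Nh ^ j) ((X.Nv ^ (n - j)) (y (t - j))) := by
  rw [X.s_comm.add_pow, LinearMap.sum_apply, Finset.sum_apply]
  refine Finset.sum_congr rfl fun j _ => ?_
  rw [← Nat.cast_comm, ← nsmul_eq_mul, LinearMap.smul_apply, Pi.smul_apply, Module.End.mul_apply,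
    sH_pow, sK_pow, Nat.cast_smul_eq_nsmul]

omit [IsAlgClosed Ω] in
theorem seq_mem {m : ℤ} {y : ℤ → X.V} (hy : ∀ t, y t ∈ X.L (m - 2 * t)) (t : ℤ) :
    (X.sH + X.sK) y t ∈ X.L (m - 2 * t) := by
  rw [LinearMap.add_apply, Pi.add_apply, sH_apply, sK_apply]
  refine Submodule.add_mem _ ?_ (X.L_Nv _ _ (hy t))
  apply X.Nh_mem
  have := hy (t - 1)
  have e : m - 2 * (t - 1) = m - 2 * t + 2 := by ring
  rwa [e] at this

omit [IsAlgClosed Ω] in
theorem sym_step {m : ℤ} {y : ℤ → X.V} (hy : ∀ t, y t ∈ X.L (m - 2 * t)) :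
    X.sym m ((X.sH + X.sK) y) = (X.nh + X.nv) (X.sym m y) := by
  funext r
  change _ = X.nh (X.sym m y) r + X.nv (X.sym m y) r
  rw [nh_apply, nv_apply]
  by_cases hr : 2 ∣ (m - r)
  · obtain ⟨t, ht⟩ := hr
    obtain rfl : r = m - 2 * t := by omega
    have h1 := X.seq_mem hy t
    have h2 : y (t - 1) ∈ X.L (m - 2 * t + 2) := by
      have := hy (t - 1)
      have e : m - 2 * (t - 1) = m - 2 * t + 2 := by ring
      rwa [e] at this
    rw [X.sym_apply rfl h1, X.sym_apply (r := m - 2 * t) rfl (hy t),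
      X.sym_apply (r := m - 2 * t + 2) (t := t - 1) (by ring) h2,
      X.ν_π (m - 2 * t) ⟨_, h2⟩ ⟨X.Nh (y (t - 1)), X.Nh_mem h2⟩ rfl,
      ← X.π_N (m - 2 * t) ⟨y t, hy t⟩ ⟨X.Nv (y t), X.L_Nv _ _ (hy t)⟩ rfl, ← map_add]
    congr 1
  · rw [X.sym_odd hr, X.sym_odd hr, X.sym_odd (r := r + 2) (by omega), map_zero, map_zero, add_zero]

omit [IsAlgClosed Ω] in
theorem sym_pow (n : ℕ) : ∀ {m : ℤ} {y : ℤ → X.V}, (∀ t, y t ∈ X.L (m - 2 * t)) →
    X.sym m (((X.sH + X.sK) ^ n) y) = ((X.nh + X.nv) ^ n) (X.sym m y) := by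
  induction n with
  | zero => intro m y _; rfl
  | succ n ih =>
    intro m y hy
    rw [pow_succ, pow_succ, Module.End.mul_apply, Module.End.mul_apply, ih (X.seq_mem hy),
      X.sym_step hy]

/-- A sequence with finite support, of weight `w + n`, killed by the `n`-th power of the operator,
is zero. -/
theorem seq_zero (hq : 1 < q) {w : ℤ} (hG : ∀ r, (X.G r).Pur (w + r)) (n : ℕ) (y : ℤ → X.V)
    (hs : ∃ T : ℤ, ∀ t, T < |t| → y t = 0) (hw : ∀ t, y t ∈ X.W (w + n))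
    (h0 : ((X.sH + X.sK) ^ n) y = 0) : y = 0 := by
  obtain ⟨T, hT⟩ := hs
  obtain ⟨a, ha⟩ := X.mono.top
  obtain ⟨b, hb⟩ := X.mono.bot
  have step : ∀ m, (∀ t, y t ∈ X.L (m - 2 * t)) → ∀ t, y t ∈ X.L (m - 1 - 2 * t) := by
    intro m hm t
    have h1 := X.sym_pow n hm
    have h2 : X.sym m (0 : ℤ → X.V) = 0 := by
      funext r
      by_cases hr : 2 ∣ (m - r)
      · obtain ⟨t, ht⟩ := hr
        obtain rfl : r = m - 2 * t := by omega
        rw [X.sym_apply (y := 0) rfl (Submodule.zero_mem _)]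
        exact map_zero _
      · rw [X.sym_odd hr]; rfl
    rw [h0, h2] at h1
    have h3 := (X.hl w hq hG n).1 (X.sym m y) ?_ h1.symm
    · have h4 := congrFun h3 (m - 2 * t)
      rw [X.sym_apply rfl (hm t)] at h4
      have h5 := (X.π_ker _ _).1 h4
      have e : m - 2 * t - 1 = m - 1 - 2 * t := by ring
      rwa [e] at h5
    · intro r
      by_cases hr : 2 ∣ (m - r)
      · obtain ⟨t, ht⟩ := hr
        obtain rfl : r = m - 2 * t := by omega
        rw [X.sym_apply rfl (hm t), sub_neg_eq_add]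
        exact X.π_wt hq _ _ _ (hw t)
      · rw [X.sym_odd hr]; exact Submodule.zero_mem _
  have h1 : ∀ k : ℕ, ∀ t, y t ∈ X.L (a + 2 * |T| - k - 2 * t) := by
    intro k
    induction k with
    | zero =>
      intro t
      by_cases ht : T < |t|
      · rw [hT t ht]; exact Submodule.zero_mem _
      · have : X.L a ≤ X.L (a + 2 * |T| - ((0 : ℕ) : ℤ) - 2 * t) := X.mono.mono (by
          have h2 := le_abs_self t
          have h3 := le_abs_self T
          push_cast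
          omega)
        rw [ha] at this
        exact this trivial
    | succ k ih =>
      intro t
      have := step _ ih t
      have e : a + 2 * |T| - (k : ℤ) - 1 - 2 * t = a + 2 * |T| - ((k + 1 : ℕ) : ℤ) - 2 * t := by
        push_cast; ring
      rwa [e] at this
  funext t
  have h2 := h1 (a + 2 * |T| - 2 * t - b).natAbs t
  have h3 : X.L (a + 2 * |T| - ((a + 2 * |T| - 2 * t - b).natAbs : ℤ) - 2 * t) ≤ X.L b :=
    X.mono.mono (by omega)
  rw [hb] at h3
  exact (Submodule.mem_bot Ω).1 (h3 h2)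

end Lim

end Pool.H87.NR

end
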